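import Pool.Agent.W5h89.Disc.Main

/-!
# The comparison of the two forms of the definitions
-/

open CategoryTheory AlgebraicGeometry Polynomial

universe u v

namespace Pool.Agent.W5h89.Disc

open Pool.Agent.H914 Pool.Agent.H914.VarClass Pool.Agent.H914.VarClass.Obj
  Pool.Agent.H914.WeilCohomology
  Pool.Agent.H281R3.HT Pool.Agent.W539.Ker Pool.Agent.W5h89.Half

variable {k : Type u} [Field k] {𝒱 : VarClass k} {ops : CycleOps 𝒱}
  {W : WeilCohomology.{u, v} ops} {P : Polarized 𝒱}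

theorem powD_eq (m : ℕ) (x : W.H P.X) :
    powD W P m x = (LinearMap.mulLeft W.K (W.cl P.X P.D) ^ m) x := by
  unfold powD
  induction m generalizing x with
  | zero => rfl
  | succ m ih => rw [Function.iterate_succ_apply, ih, L_succ]

theorem isPrimitive_iff {j : ℕ} {x : W.H P.X} : IsPrimitive W P j x ↔ x ∈ primSub W P j := by
  unfold IsPrimitive primSub
  rw [Submodule.mem_inf, LinearMap.mem_ker, powD_eq]

theorem form_eq (j : ℕ) (x y : W.H P.X) : form W P j x y = lform W P j x y := by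
  unfold form lform trace
  rw [powD_eq]

theorem IsFrobenius.toFrob {f : P.X ⟶ P.X} {q : ℕ} (h : IsFrobenius W P.X f q) :
    IsFrob W P.X f q :=
  ⟨h.1, h.2⟩

theorem HasInvariants.toInv {f : P.X ⟶ P.X} {j r : ℕ} {δ : ℚ} {χ : ℤ[X]}
    (h : HasInvariants W P f j r δ χ) : HasInv W P f j r δ χ := by
  classical
  obtain ⟨b, F, ⟨hb1, hb2⟩, h1, h2, h3⟩ := h
  set b' : Fin r → primSub W P j := fun a => ⟨b a, isPrimitive_iff.1 (hb1 a)⟩ with hb'
  have hc : ∀ c : Fin r → W.K, ((∑ a, c a • b' a : primSub W P j) : W.H P.X) =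
      comb W P.X c b := by
    intro c
    rw [Submodule.coe_sum]
    rfl
  have hli : LinearIndependent W.K b' := by
    rw [Fintype.linearIndependent_iff]
    intro c h0
    have h4 : comb W P.X c b = 0 := by rw [← hc, h0]; rfl
    have h5 : comb W P.X 0 b = 0 := by
      unfold comb
      simp
    obtain ⟨e, -, he⟩ := hb2 0 (isPrimitive_iff.2 (Submodule.zero_mem _))
    have h6 := (he c h4.symm).trans (he 0 h5.symm).symm
    exact fun a => congrFun h6 a
  have hsp : ⊤ ≤ Submodule.span W.K (Set.range b') := by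
    rintro x -
    obtain ⟨c, hc', -⟩ := hb2 x.1 (isPrimitive_iff.2 x.2)
    have h4 : x = ∑ a, c a • b' a := by
      apply Subtype.ext
      rw [hc]
      exact hc'
    rw [h4]
    exact Submodule.sum_mem _ fun a _ => Submodule.smul_mem _ _ (Submodule.subset_span ⟨a, rfl⟩)
  refine ⟨Module.Basis.mk hli hsp, F, ?_, h2, ?_⟩
  · intro c
    simp only [Module.Basis.mk_apply]
    exact h1 c
  · rw [← h3]
    congr 1
    ext a c
    simp only [Module.Basis.mk_apply, Matrix.of_apply, gram, form_eq, hb']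

/-- **The discriminant and the parity of the number of negative squares.** -/
theorem parity_main' (p : ℕ) (W : ℕ → WeilCohomology.{u, v} ops)
    (hW : ∀ (l : ℕ) [Fact l.Prime], l ≠ p → Nonempty ((W l).K →+* ℚ_[l]))
    (hD : P.X.IsCyc 1 P.D) {f : P.X ⟶ P.X} {q : ℕ} (hq : 0 < q)
    (hf : ∀ l, l.Prime → l ≠ p → IsFrobenius (W l) P.X f q)
    (hA : ∀ l, l.Prime → l ≠ p → LefschetzA (W l) P.X P.D) {j : ℕ} (hj : 2 * j ≤ P.X.dim)
    {r : ℕ} {δ : ℚ} (hδ : 0 < δ) {χ : ℤ[X]}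
    (hI : ∀ l, l.Prime → l ≠ p → HasInvariants (W l) P f j r δ χ)
    (hRH : ∀ z : ℂ, aeval z χ = 0 → ‖z‖ = (q : ℝ) ^ j) (hneg : χ.eval (-(q : ℤ) ^ j) ≠ 0) :
    (∀ (t : ℕ) (z : Fin t → P.X.Cycles), IsOrthogonal ops P j z →
      (∀ a, pairing ops P.X P.D j (z a) (z a) ≠ 0) → t ≤ χ.rootMultiplicity ((q : ℤ) ^ j)) ∧
    (∀ z : Fin (χ.rootMultiplicity ((q : ℤ) ^ j)) → P.X.Cycles, IsOrthogonal ops P j z →
      (∀ a, pairing ops P.X P.D j (z a) (z a) ≠ 0) →
        0 < ∏ a, pairing ops P.X P.D j (z a) (z a)) ∧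
    ∀ (t : ℕ) (z : Fin t → P.X.Cycles), IsOrthogonal ops P j z →
      (∀ a, 0 < pairing ops P.X P.D j (z a) (z a)) →
        χ.rootMultiplicity ((q : ℤ) ^ j) ≤ t + 1 → HodgeIn ops P j :=
  parity_main p W hW hD hq (fun l hl hlp => (hf l hl hlp).toFrob) hA hj hδ
    (fun l hl hlp => (hI l hl hlp).toInv) hRH hneg

end Pool.Agent.W5h89.Disc
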