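import Pool.Agent.W5h89.Disc.Num

/-!
# Fixed vectors of isometries and discriminants
-/

open Matrix Polynomial Module

set_option linter.unusedSectionVars false

namespace Pool.Agent.W5h89.Disc

variable {K : Type*} [Field K] [CharZero K]

/-- The discriminant of a form with an isometry `F` without the eigenvalues `1` and `-1`. -/
theorem det_square {s : ℕ} {Y F : Matrix (Fin s) (Fin s) K} (hsy : Yᵀ = Y) (hY : Y.det ≠ 0)
    (hF : Fᵀ * Y * F = Y) (h1 : F.charpoly.eval 1 ≠ 0) (h2 : F.charpoly.eval (-1) ≠ 0) :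
    Even s ∧ F.charpoly.eval 0 ≠ 0 ∧ ∃ x : K, x ≠ 0 ∧
      Y.det * (F.charpoly.eval 1 * F.charpoly.eval (-1) / F.charpoly.eval 0) = x ^ 2 := by
  have hFd : F.det ≠ 0 := by
    intro h0
    apply hY
    rw [← hF, Matrix.det_mul, h0, mul_zero]
  have hFu : IsUnit F.det := hFd.isUnit
  have hFtu : IsUnit Fᵀ.det := by rw [Matrix.det_transpose]; exact hFu
  have e1 : Fᵀ * Y = Y * F⁻¹ := by
    calc Fᵀ * Y = Fᵀ * Y * (F * F⁻¹) := by rw [Matrix.mul_nonsing_inv _ hFu, Matrix.mul_one]
      _ = Y * F⁻¹ := by rw [← Matrix.mul_assoc, hF]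
  have e2 : (Fᵀ)⁻¹ * Y = Y * F := by
    calc (Fᵀ)⁻¹ * Y = (Fᵀ)⁻¹ * (Fᵀ * Y * F) := by rw [hF]
      _ = ((Fᵀ)⁻¹ * Fᵀ) * (Y * F) := by simp only [Matrix.mul_assoc]
      _ = Y * F := by rw [Matrix.nonsing_inv_mul _ hFtu, Matrix.one_mul]
  set M := Y * (F - F⁻¹) with hM
  have hMt : Mᵀ = -M := by
    rw [hM, transpose_mul, transpose_sub, hsy, Matrix.sub_mul, e1, Matrix.transpose_nonsing_inv,
      e2, Matrix.mul_sub, neg_sub]
  have c1 : F.charpoly.eval 1 = (1 - F).det := by
    rw [Matrix.eval_charpoly, map_one]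
  have c2 : F.charpoly.eval (-1) = (-1 - F).det := by
    rw [Matrix.eval_charpoly, map_neg, map_one]
  have c0 : F.charpoly.eval 0 = (-1) ^ s * F.det := by
    rw [Matrix.eval_charpoly]
    rw [map_zero, zero_sub, Matrix.det_neg, Fintype.card_fin]
  have hprod : F.charpoly.eval 1 * F.charpoly.eval (-1) = (F - F⁻¹).det * F.det := by
    rw [c1, c2, ← Matrix.det_mul, ← Matrix.det_mul]
    congr 1
    rw [Matrix.sub_mul F, Matrix.nonsing_inv_mul _ hFu]
    noncomm_ring
  have hMd : M.det ≠ 0 := by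
    rw [hM, Matrix.det_mul]
    refine mul_ne_zero hY fun h0 => ?_
    rw [h0, zero_mul] at hprod
    exact mul_ne_zero h1 h2 hprod
  have hs : Even s := by
    have h3 : M.det = (-1) ^ s * M.det := by
      conv_lhs => rw [← Matrix.det_transpose, hMt, Matrix.det_neg, Fintype.card_fin]
    rcases Nat.even_or_odd s with h | h
    · exact h
    · exfalso
      rw [h.neg_one_pow, neg_one_mul] at h3
      have h4 : (2 : K) * M.det = 0 := by
        rw [two_mul]
        nth_rewrite 1 [h3]
        ring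
      exact hMd ((mul_eq_zero.1 h4).resolve_left two_ne_zero)
  rw [hs.neg_one_pow, one_mul] at c0
  obtain ⟨x, hx⟩ := skew_sq s M hMt
  refine ⟨hs, by rw [c0]; exact hFd, x, ?_, ?_⟩
  · rintro rfl
    apply hMd
    rw [hx]
    ring
  · rw [← hx, hM, Matrix.det_mul, hprod, c0]
    field_simp

variable {V : Type*} [AddCommGroup V] [Module K V] [Module.Finite K V]

/-- A family of pairwise orthogonal vectors with nonzero squares, fixed by `G`. -/
structure Fixed (β : V →ₗ[K] V →ₗ[K] K) (G : V →ₗ[K] V) {t : ℕ} (u : Fin t → V)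
    (c : Fin t → K) : Prop where
  fix : ∀ a, G (u a) = u a
  orth : ∀ a b, a ≠ b → β (u a) (u b) = 0
  sq : ∀ a, β (u a) (u a) = c a
  ne : ∀ a, c a ≠ 0

variable {β : V →ₗ[K] V →ₗ[K] K} {G : V →ₗ[K] V} {t : ℕ} {u : Fin t → V} {c : Fin t → K}

theorem Fixed.apply_sum (h : Fixed β G u c) (l : Fin t → K) (a : Fin t) :
    β (u a) (∑ b, l b • u b) = l a * c a := by
  rw [map_sum, Finset.sum_eq_single a]
  · rw [map_smul, h.sq, smul_eq_mul]
  · intro b _ hb
    rw [map_smul, h.orth a b hb.symm, smul_zero]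
  · intro h0
    exact absurd (Finset.mem_univ a) h0

theorem Fixed.linInd (h : Fixed β G u c) : LinearIndependent K u := by
  rw [Fintype.linearIndependent_iff]
  intro l hl a
  have h1 := h.apply_sum l a
  rw [hl, map_zero] at h1
  exact (mul_eq_zero.1 h1.symm).resolve_right (h.ne a)

/-- An adapted basis. -/
theorem Fixed.exists_basis (h : Fixed β G u c) : ∃ (s : ℕ) (bb : Basis (Fin t ⊕ Fin s) K V),
    (∀ a, bb (Sum.inl a) = u a) ∧ ∀ a i, β (u a) (bb (Sum.inr i)) = 0 := by
  set S := Submodule.span K (Set.range u) with hS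
  set U : Submodule K V := ⨅ a, LinearMap.ker (β (u a)) with hU
  have hmem : ∀ x, x ∈ U ↔ ∀ a, β (u a) x = 0 := by
    intro x
    rw [hU, Submodule.mem_iInf]
    rfl
  have hcompl : IsCompl S U := by
    constructor
    · rw [Submodule.disjoint_def]
      intro x hxS hxU
      obtain ⟨l, rfl⟩ := (Submodule.mem_span_range_iff_exists_fun K).1 hxS
      have : ∀ a, l a = 0 := by
        intro a
        have h1 := (hmem _).1 hxU a
        rw [h.apply_sum] at h1
        exact (mul_eq_zero.1 h1).resolve_right (h.ne a)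
      simp [this]
    · rw [codisjoint_iff, eq_top_iff]
      intro x _
      rw [Submodule.mem_sup]
      refine ⟨∑ a, (β (u a) x / c a) • u a, ?_, x - ∑ a, (β (u a) x / c a) • u a, ?_, by abel⟩
      · exact Submodule.sum_mem _ fun a _ =>
          Submodule.smul_mem _ _ (Submodule.subset_span ⟨a, rfl⟩)
      · rw [hmem]
        intro a
        rw [map_sub, h.apply_sum, div_mul_cancel₀ _ (h.ne a), sub_self]
  set bS : Basis (Fin t) K S := Basis.span h.linInd with hbS
  set bU := Module.finBasis K U with hbU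
  refine ⟨_, (bS.prod bU).map (Submodule.prodEquivOfIsCompl S U hcompl), ?_, ?_⟩
  · intro a
    rw [Basis.map_apply]
    simp only [Basis.prod_apply, Sum.elim_inl, Function.comp_apply, LinearMap.coe_inl,
      Submodule.coe_prodEquivOfIsCompl', ZeroMemClass.coe_zero, add_zero]
    rw [hbS, Basis.span_apply]
  · intro a i
    rw [Basis.map_apply]
    simp only [Basis.prod_apply, Sum.elim_inr, Function.comp_apply, LinearMap.coe_inr,
      Submodule.coe_prodEquivOfIsCompl', ZeroMemClass.coe_zero, zero_add]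
    exact (hmem _).1 (bU i).2 a

/-- The matrices in an adapted basis. -/
theorem Fixed.blocks (h : Fixed β G u c) (hsy : ∀ x y, β x y = β y x)
    (hG : ∀ x y, β (G x) (G y) = β x y) {s : ℕ} (bb : Basis (Fin t ⊕ Fin s) K V)
    (h1 : ∀ a, bb (Sum.inl a) = u a) (h2 : ∀ a i, β (u a) (bb (Sum.inr i)) = 0) :
    ∃ Y F : Matrix (Fin s) (Fin s) K, Yᵀ = Y ∧ Fᵀ * Y * F = Y ∧
      LinearMap.toMatrix₂ bb bb β = fromBlocks (diagonal c) 0 0 Y ∧
      LinearMap.toMatrix bb bb G = fromBlocks 1 0 0 F := by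
  have hrep : ∀ x a, β (u a) x = bb.repr x (Sum.inl a) * c a := by
    intro x a
    conv_lhs => rw [← bb.sum_repr x]
    rw [Fintype.sum_sum_type, map_add, map_sum, map_sum]
    have h0 : ∑ i, β (u a) (bb.repr x (Sum.inr i) • bb (Sum.inr i)) = 0 :=
      Finset.sum_eq_zero fun i _ => by rw [map_smul, h2, smul_zero]
    rw [h0, add_zero, Finset.sum_eq_single a]
    · rw [map_smul, h1, h.sq, smul_eq_mul]
    · intro b _ hb
      rw [map_smul, h1, h.orth a b hb.symm, smul_zero]
    · intro h0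
      exact absurd (Finset.mem_univ a) h0
  set F0 := LinearMap.toMatrix bb bb G with hF0
  set Y0 := LinearMap.toMatrix₂ bb bb β with hY0
  have hFb : F0 = fromBlocks 1 0 0 F0.toBlocks₂₂ := by
    conv_lhs => rw [← fromBlocks_toBlocks F0]
    congr 1
    · ext a b
      change F0 (Sum.inl a) (Sum.inl b) = _
      rw [hF0, LinearMap.toMatrix_apply, h1, h.fix, ← h1 b, bb.repr_self, Matrix.one_apply]
      by_cases hab : a = b
      · subst hab
        simp
      · rw [if_neg hab, Finsupp.single_eq_of_ne]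
        intro h3
        exact hab (Sum.inl_injective h3)
    · ext a i
      change F0 (Sum.inl a) (Sum.inr i) = 0
      rw [hF0, LinearMap.toMatrix_apply]
      have h3 := hrep (G (bb (Sum.inr i))) a
      have h4 : β (u a) (G (bb (Sum.inr i))) = 0 := by
        conv_lhs => rw [← h.fix a]
        rw [hG, h2]
      rw [h4] at h3
      exact (mul_eq_zero.1 h3.symm).resolve_right (h.ne a)
    · ext i a
      change F0 (Sum.inr i) (Sum.inl a) = 0
      rw [hF0, LinearMap.toMatrix_apply, h1, h.fix, ← h1 a, bb.repr_self, Finsupp.single_eq_of_ne]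
      simp
  have hYb : Y0 = fromBlocks (diagonal c) 0 0 Y0.toBlocks₂₂ := by
    conv_lhs => rw [← fromBlocks_toBlocks Y0]
    congr 1
    · ext a b
      change Y0 (Sum.inl a) (Sum.inl b) = _
      rw [hY0, LinearMap.toMatrix₂_apply, h1, h1, Matrix.diagonal_apply]
      by_cases hab : a = b
      · subst hab
        rw [if_pos rfl, h.sq]
      · rw [if_neg hab, h.orth a b hab]
    · ext a i
      change Y0 (Sum.inl a) (Sum.inr i) = 0
      rw [hY0, LinearMap.toMatrix₂_apply, h1, h2]
    · ext i a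
      change Y0 (Sum.inr i) (Sum.inl a) = 0
      rw [hY0, LinearMap.toMatrix₂_apply, h1, hsy, h2]
  have hiso : F0ᵀ * Y0 * F0 = Y0 := by
    have h3 := LinearMap.toMatrix₂_compl₁₂ bb bb bb bb β G G
    have h4 : β.compl₁₂ G G = β := by
      ext x y
      exact hG x y
    rw [h4] at h3
    exact h3.symm
  refine ⟨Y0.toBlocks₂₂, F0.toBlocks₂₂, ?_, ?_, hYb, hFb⟩
  · ext i j
    change Y0 (Sum.inr j) (Sum.inr i) = Y0 (Sum.inr i) (Sum.inr j)
    rw [hY0, LinearMap.toMatrix₂_apply, LinearMap.toMatrix₂_apply, hsy]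
  · have h5 := hiso
    rw [hFb, hYb, fromBlocks_transpose, fromBlocks_multiply, fromBlocks_multiply] at h5
    have h6 := congrArg toBlocks₂₂ h5
    simpa using h6

/-- **The discriminant and the fixed vectors.** Let `u` be pairwise orthogonal fixed vectors of an
isometry `G` with nonzero squares `c a`. Then `(X - 1) ^ t` divides the characteristic polynomial of
`G`, and if the quotient `ψ` has neither the root `1` nor the root `-1`, then its degree `r - t` is
even and the product of the numbers `c a`, of the discriminant and of `ψ (1) ψ (-1) / ψ (0)` is a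
square. -/
theorem Fixed.main (h : Fixed β G u c) (hsy : ∀ x y, β x y = β y x)
    (hG : ∀ x y, β (G x) (G y) = β x y) {r : ℕ} (b : Basis (Fin r) K V)
    (hdet : (LinearMap.toMatrix₂ b b β).det ≠ 0) :
    ∃ ψ : K[X], G.charpoly = (X - C 1) ^ t * ψ ∧ (ψ.eval 1 ≠ 0 → ψ.eval (-1) ≠ 0 →
      ∃ s, r = t + s ∧ Even s ∧ ψ.eval 0 ≠ 0 ∧ ∃ x : K, x ≠ 0 ∧
        (∏ a, c a) * (LinearMap.toMatrix₂ b b β).det *
          (ψ.eval 1 * ψ.eval (-1) / ψ.eval 0) = x ^ 2) := by
  obtain ⟨s, bb, h1, h2⟩ := h.exists_basis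
  obtain ⟨Y, F, hYt, hFY, hY, hF⟩ := h.blocks hsy hG bb h1 h2
  have hr : r = t + s := by
    have e1 := Module.finrank_eq_card_basis b
    have e2 := Module.finrank_eq_card_basis bb
    rw [Fintype.card_fin] at e1
    rw [Fintype.card_sum, Fintype.card_fin, Fintype.card_fin] at e2
    omega
  refine ⟨F.charpoly, ?_, ?_⟩
  · rw [← LinearMap.charpoly_toMatrix G bb, hF, Matrix.charpoly_fromBlocks_zero₁₂,
      Matrix.charpoly_one, Fintype.card_fin]
    rw [map_one]
  · intro hp hm
    -- the change of the basis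
    obtain ⟨e⟩ : Nonempty (Fin r ≃ Fin t ⊕ Fin s) := by
      rw [hr]
      exact ⟨finSumFinEquiv.symm⟩
    set b' := b.reindex e with hb'
    have hd1 : (LinearMap.toMatrix₂ b' b' β).det = (LinearMap.toMatrix₂ b b β).det := by
      rw [← Matrix.det_submatrix_equiv_self e]
      congr 1
      ext i j
      rw [Matrix.submatrix_apply, LinearMap.toMatrix₂_apply, LinearMap.toMatrix₂_apply, hb',
        Basis.reindex_apply, Basis.reindex_apply, Equiv.symm_apply_apply, Equiv.symm_apply_apply]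
    have hch := LinearMap.toMatrix₂_mul_basis_toMatrix b' b' bb bb β
    set Q := b'.toMatrix bb with hQ
    have hd2 : (LinearMap.toMatrix₂ bb bb β).det = Q.det ^ 2 * (LinearMap.toMatrix₂ b b β).det := by
      rw [← hch, Matrix.det_mul, Matrix.det_mul, Matrix.det_transpose, hd1]
      ring
    have hQ0 : Q.det ≠ 0 := by
      have h3 : Q * bb.toMatrix b' = 1 := b'.toMatrix_mul_toMatrix_flip bb
      intro h0
      have h4 := congrArg Matrix.det h3
      rw [Matrix.det_mul, h0, zero_mul, Matrix.det_one] at h4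
      exact zero_ne_one h4
    have hd3 : (LinearMap.toMatrix₂ bb bb β).det = (∏ a, c a) * Y.det := by
      rw [hY, Matrix.det_fromBlocks_zero₁₂, Matrix.det_diagonal]
    have hc0 : (∏ a, c a) ≠ 0 := Finset.prod_ne_zero_iff.2 fun a _ => h.ne a
    have hY0 : Y.det ≠ 0 := by
      intro h0
      rw [h0, mul_zero] at hd3
      rw [hd3] at hd2
      exact mul_ne_zero (pow_ne_zero 2 hQ0) hdet hd2.symm
    obtain ⟨hs, h0, x, hx0, hx⟩ := det_square hYt hY0 hFY hp hm
    refine ⟨s, hr, hs, h0, (∏ a, c a) * x / Q.det, ?_, ?_⟩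
    · exact div_ne_zero (mul_ne_zero hc0 hx0) hQ0
    · have h5 : (LinearMap.toMatrix₂ b b β).det = (∏ a, c a) * Y.det / Q.det ^ 2 := by
        rw [← hd3, hd2]
        field_simp
      rw [div_pow, mul_pow, ← hx, h5]
      ring

end Pool.Agent.W5h89.Disc
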