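import Pool.Agent.W5h89.Half.Defs

/-!
# Discriminants of the primitive cohomology: definitions
-/

open CategoryTheory AlgebraicGeometry Polynomial

universe u v

namespace Pool.Agent.W5h89.Disc

open Pool.Agent.H914 Pool.Agent.H914.VarClass Pool.Agent.H914.VarClass.Obj
  Pool.Agent.H281R3.HT Pool.Agent.W539.Ker Pool.Agent.W5h89.Half

variable {k : Type u} [Field k] {𝒱 : VarClass k} {ops : CycleOps 𝒱}

/-- The value `tr x` of the orientation. -/
noncomputable def trace (W : WeilCohomology.{u, v} ops) (X : 𝒱.Obj) (x : W.H X) : W.K :=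
  W.tr X x

/-- The class `f^* x`. -/
noncomputable def pull (W : WeilCohomology.{u, v} ops) {X : 𝒱.Obj} (f : X ⟶ X) (x : W.H X) :
    W.H X :=
  W.map f x

/-- `D ^ m · x`. -/
noncomputable def powD (W : WeilCohomology.{u, v} ops) (P : Polarized 𝒱) (m : ℕ) (x : W.H P.X) :
    W.H P.X :=
  (fun y => W.cl P.X P.D * y)^[m] x

/-- The class `x` of degree `2 j` is primitive: `D ^ (d - 2 j + 1) · x = 0`, `d = dim X`. -/
def IsPrimitive (W : WeilCohomology.{u, v} ops) (P : Polarized 𝒱) (j : ℕ) (x : W.H P.X) : Prop :=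
  x ∈ W.gr P.X (2 * j) ∧ powD W P (P.X.dim - 2 * j + 1) x = 0

/-- The value `(-1) ^ j tr (x · D ^ (d - 2 j) · y)` of the form of the standard conjecture of Hodge
type, `d = dim X`. -/
noncomputable def form (W : WeilCohomology.{u, v} ops) (P : Polarized 𝒱) (j : ℕ)
    (x y : W.H P.X) : W.K :=
  (-1) ^ j * trace W P.X (x * powD W P (P.X.dim - 2 * j) y)

/-- `f^*` multiplies the orientation by `c`. -/
def MulTr (W : WeilCohomology.{u, v} ops) {X : 𝒱.Obj} (f : X ⟶ X) (c : W.K) : Prop :=
  ∀ x, trace W X (pull W f x) = c * trace W X x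

/-- `f^*` multiplies the classes of the cycles of codimension `i` by `c`. -/
def MulCl (W : WeilCohomology.{u, v} ops) {X : 𝒱.Obj} (f : X ⟶ X) (i : ℕ) (c : W.K) : Prop :=
  ∀ z, X.IsCyc i z → pull W f (W.cl X z) = c • W.cl X z

/-- The endomorphism `f` of `X` acts on the cohomology like the Frobenius endomorphism relative to
a finite field with `q` elements over which all algebraic classes are defined. -/
def IsFrobenius (W : WeilCohomology.{u, v} ops) (X : 𝒱.Obj) (f : X ⟶ X) (q : ℕ) : Prop :=
  MulTr W f ((q : W.K) ^ X.dim) ∧ ∀ i, MulCl W f i ((q : W.K) ^ i)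

/-- The linear combination of the `b a` with the coefficients `c a`. -/
noncomputable def comb (W : WeilCohomology.{u, v} ops) (X : 𝒱.Obj) {r : ℕ} (c : Fin r → W.K)
    (b : Fin r → W.H X) : W.H X :=
  ∑ a, c a • b a

/-- The classes `b a` are a basis of the space of the primitive classes of degree `2 j`. -/
def IsBasis (W : WeilCohomology.{u, v} ops) (P : Polarized 𝒱) (j : ℕ) {r : ℕ}
    (b : Fin r → W.H P.X) : Prop :=
  (∀ a, IsPrimitive W P j (b a)) ∧ ∀ x, IsPrimitive W P j x → ∃! c, x = comb W P.X c b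

/-- The matrix of the form in the basis `b`. -/
noncomputable def gram (W : WeilCohomology.{u, v} ops) (P : Polarized 𝒱) (j : ℕ) {r : ℕ}
    (b : Fin r → W.H P.X) : Matrix (Fin r) (Fin r) W.K :=
  Matrix.of fun a c => form W P j (b a) (b c)

/-- The space of the primitive classes of degree `2 j` has a basis `b` with `r` elements in which
the form has the discriminant `δ`, and `f^*` has a matrix `F` with the characteristic polynomial
`χ`. -/
def HasInvariants (W : WeilCohomology.{u, v} ops) (P : Polarized 𝒱) (f : P.X ⟶ P.X) (j r : ℕ)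
    (δ : ℚ) (χ : ℤ[X]) : Prop :=
  ∃ (b : Fin r → W.H P.X) (F : Matrix (Fin r) (Fin r) W.K), IsBasis W P j b ∧
    (∀ c, pull W f (b c) = comb W P.X (fun a => F a c) b) ∧
      F.charpoly = χ.map (Int.castRingHom W.K) ∧ (gram W P j b).det = (δ : W.K)

/-- Pairwise orthogonal cycles of codimension `j` on `X` which are primitive modulo numerical
equivalence. -/
def IsOrthogonal (ops : CycleOps 𝒱) (P : Polarized 𝒱) (j : ℕ) {t : ℕ} (z : Fin t → P.X.Cycles) :
    Prop :=
  (∀ a, NumPrimitive ops P.X P.D j (z a)) ∧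
    ∀ a b, a ≠ b → pairing ops P.X P.D j (z a) (z b) = 0

/-- The standard conjecture of Hodge type for `X` and `D` in the codimension `j`: the pairing
`(-1) ^ j deg (z · D ^ (d - 2 j) · w)` is positive definite on the primitive cycles of
codimension `j` modulo numerical equivalence. -/
def HodgeIn (ops : CycleOps 𝒱) (P : Polarized 𝒱) (j : ℕ) : Prop :=
  ∀ z, NumPrimitive ops P.X P.D j z → ¬ NumTrivial ops P.X j z → 0 < pairing ops P.X P.D j z z

end Pool.Agent.W5h89.Disc
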