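import Pool.Agent.W5h89.Disc.Core

/-!
# Realizations of a rational pairing
-/

open Matrix Polynomial Module

set_option linter.unusedSectionVars false

namespace Pool.Agent.W5h89.Disc

universe v w

/-- The rational pairing `pr` is realized by vectors of a quadratic space over `K` of dimension `r`
and discriminant `δ`, on which the similitude `F` with multiplier `Q ^ 2` and characteristic
polynomial `χ` is the multiplication by `Q`. -/
structure Realization {N : Type w} (pr : N → N → ℚ) (K : Type v) [Field K] [CharZero K] (Q : ℚ)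
    (r : ℕ) (δ : ℚ) (χ : ℚ[X]) where
  V : Type v
  [group : AddCommGroup V]
  [module : Module K V]
  [finite : Module.Finite K V]
  β : V →ₗ[K] V →ₗ[K] K
  F : V →ₗ[K] V
  b : Basis (Fin r) K V
  φ : N → V
  symm : ∀ x y, β x y = β y x
  sim : ∀ x y, β (F x) (F y) = (Q : K) ^ 2 * β x y
  det : (LinearMap.toMatrix₂ b b β).det = (δ : K)
  char : F.charpoly = χ.map (algebraMap ℚ K)
  fix : ∀ z, F (φ z) = (Q : K) • φ z
  val : ∀ z w, β (φ z) (φ w) = (pr z w : K)

attribute [instance] Realization.group Realization.module Realization.finite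

/-- Pairwise orthogonal elements with nonzero squares. -/
def Orth {N : Type w} (pr : N → N → ℚ) {t : ℕ} (z : Fin t → N) : Prop :=
  (∀ a b, a ≠ b → pr (z a) (z b) = 0) ∧ ∀ a, pr (z a) (z a) ≠ 0

variable {N : Type w} {pr : N → N → ℚ} {K : Type v} [Field K] [CharZero K] {Q : ℚ} {r : ℕ}
  {δ : ℚ} {χ : ℚ[X]}

/-- the number in the theorem -/
noncomputable def kap (Q : ℚ) (r t : ℕ) (ω : ℚ[X]) : ℚ :=
  Q ^ t * (Q ^ r)⁻¹ * (ω.eval Q * ω.eval (-Q) / ω.eval 0)

theorem Realization.main (R : Realization pr K Q r δ χ) (hQ : Q ≠ 0) (hδ : δ ≠ 0) {τ : ℕ}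
    {ω : ℚ[X]} (hχ : χ = (X - C Q) ^ τ * ω) (h1 : ω.eval Q ≠ 0) (h2 : ω.eval (-Q) ≠ 0) {t : ℕ}
    {z : Fin t → N} (hz : Orth pr z) :
    t ≤ τ ∧ (t = τ → ∃ s, r = t + s ∧ Even s ∧ ω.eval 0 ≠ 0 ∧ ∃ x : K, x ≠ 0 ∧
      (((∏ a, pr (z a) (z a)) * δ * kap Q r t ω : ℚ) : K) = x ^ 2) := by
  have hQK : (Q : K) ≠ 0 := by exact_mod_cast hQ
  set G : R.V →ₗ[K] R.V := (Q : K)⁻¹ • R.F with hG
  have hFG : R.F = (Q : K) • G := by rw [hG, smul_smul, mul_inv_cancel₀ hQK, one_smul]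
  have hfix : Fixed R.β G (fun a => R.φ (z a)) (fun a => (pr (z a) (z a) : K)) := by
    refine ⟨fun a => ?_, fun a b hab => ?_, fun a => R.val _ _, fun a => ?_⟩
    · rw [hG, LinearMap.smul_apply, R.fix, smul_smul, inv_mul_cancel₀ hQK, one_smul]
    · rw [R.val, hz.1 a b hab, Rat.cast_zero]
    · exact_mod_cast hz.2 a
  have hiso : ∀ x y, R.β (G x) (G y) = R.β x y := by
    intro x y
    rw [hG, LinearMap.smul_apply, LinearMap.smul_apply, map_smul, map_smul, LinearMap.smul_apply,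
      R.sim, smul_eq_mul, smul_eq_mul]
    field_simp
  have hdet0 : (LinearMap.toMatrix₂ R.b R.b R.β).det ≠ 0 := by
    rw [R.det]
    exact_mod_cast hδ
  obtain ⟨ψ, hψ, hmain⟩ := hfix.main R.symm hiso R.b hdet0
  -- the characteristic polynomials
  have hcomp : (R.F.charpoly).comp (C (Q : K) * X) = C ((Q : K) ^ r) * G.charpoly := by
    apply Polynomial.funext
    intro x
    rw [eval_comp, eval_mul, eval_C, eval_X, eval_mul, eval_C, ← LinearMap.charpoly_toMatrix R.F R.b,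
      ← LinearMap.charpoly_toMatrix G R.b, Matrix.eval_charpoly, Matrix.eval_charpoly, hFG,
      map_smul]
    rw [show (Matrix.scalar (Fin r) ((Q : K) * x) - (Q : K) • LinearMap.toMatrix R.b R.b G) =
      (Q : K) • (Matrix.scalar (Fin r) x - LinearMap.toMatrix R.b R.b G) by
        rw [smul_sub]
        congr 1
        ext i j
        simp only [Matrix.scalar_apply, Matrix.smul_apply, Matrix.diagonal_apply, smul_eq_mul]
        split_ifs
        · rfl
        · rw [mul_zero]]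
    rw [Matrix.det_smul, Fintype.card_fin]
  set ωK := ω.map (algebraMap ℚ K) with hωK
  have hχK : (R.F.charpoly).comp (C (Q : K) * X) =
      C ((Q : K) ^ τ) * ((X - C 1) ^ τ * ωK.comp (C (Q : K) * X)) := by
    rw [R.char, hχ, Polynomial.map_mul, Polynomial.map_pow, Polynomial.map_sub, map_X, map_C,
      mul_comp, pow_comp, sub_comp, X_comp, C_comp]
    have e : (C (Q : K) * X - C ((algebraMap ℚ K) Q)) = C (Q : K) * (X - C 1) := by
      rw [mul_sub, ← C_mul, mul_one]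
      rfl
    rw [e, mul_pow, ← C_pow, mul_assoc]
  have hkey : C ((Q : K) ^ r) * ((X - C 1) ^ t * ψ) =
      C ((Q : K) ^ τ) * ((X - C 1) ^ τ * ωK.comp (C (Q : K) * X)) := by
    rw [← hψ, ← hcomp, hχK]
  have hev : ∀ x : ℚ, (ωK.comp (C (Q : K) * X)).eval (x : K) = ((ω.eval (Q * x) : ℚ) : K) := by
    intro x
    rw [eval_comp, eval_mul, eval_C, eval_X, hωK, ← Rat.cast_mul]
    change eval ((algebraMap ℚ K) (Q * x)) _ = (algebraMap ℚ K) _
    rw [eval_map_algebraMap, aeval_algebraMap_apply, coe_aeval_eq_eval]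
  have hX : (X - C 1 : K[X]) ≠ 0 := X_sub_C_ne_zero 1
  have hle : t ≤ τ := by
    by_contra hlt
    obtain ⟨m, rfl⟩ := Nat.exists_eq_add_of_lt (not_le.1 hlt)
    have h3 : (X - C 1 : K[X]) ^ τ * (C ((Q : K) ^ r) * ((X - C 1) ^ (m + 1) * ψ)) =
        (X - C 1) ^ τ * (C ((Q : K) ^ τ) * ωK.comp (C (Q : K) * X)) := by
      calc _ = C ((Q : K) ^ r) * ((X - C 1) ^ (τ + m + 1) * ψ) := by ring
        _ = _ := by rw [hkey]; ring
    have h4 := mul_left_cancel₀ (pow_ne_zero τ hX) h3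
    have h5 := congrArg (eval (1 : K)) h4
    rw [eval_mul, eval_mul, eval_pow, eval_sub, eval_X, eval_C, eval_C, sub_self,
      zero_pow (Nat.succ_ne_zero m), zero_mul, mul_zero, eval_mul, eval_C] at h5
    have h6 := hev 1
    rw [Rat.cast_one, mul_one] at h6
    rw [h6] at h5
    exact mul_ne_zero (pow_ne_zero τ hQK) (by exact_mod_cast h1) h5.symm
  refine ⟨hle, ?_⟩
  rintro rfl
  have hψ' : C ((Q : K) ^ r) * ψ = C ((Q : K) ^ t) * ωK.comp (C (Q : K) * X) := by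
    have h3 : (X - C 1 : K[X]) ^ t * (C ((Q : K) ^ r) * ψ) =
        (X - C 1) ^ t * (C ((Q : K) ^ t) * ωK.comp (C (Q : K) * X)) := by
      calc _ = C ((Q : K) ^ r) * ((X - C 1) ^ t * ψ) := by ring
        _ = _ := by rw [hkey]; ring
    exact mul_left_cancel₀ (pow_ne_zero t hX) h3
  have hval : ∀ x : ℚ, ψ.eval (x : K) = ((Q ^ t * (Q ^ r)⁻¹ * ω.eval (Q * x) : ℚ) : K) := by
    intro x
    have h3 := congrArg (eval (x : K)) hψ'
    rw [eval_mul, eval_C, eval_mul, eval_C, hev] at h3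
    push_cast
    have h4 : (Q : K) ^ r ≠ 0 := pow_ne_zero _ hQK
    field_simp
    linear_combination h3
  have v1 : ψ.eval 1 = ((Q ^ t * (Q ^ r)⁻¹ * ω.eval Q : ℚ) : K) := by
    have := hval 1
    rwa [Rat.cast_one, mul_one] at this
  have v2 : ψ.eval (-1) = ((Q ^ t * (Q ^ r)⁻¹ * ω.eval (-Q) : ℚ) : K) := by
    have := hval (-1)
    rwa [Rat.cast_neg, Rat.cast_one, mul_neg_one] at this
  have v0 : ψ.eval 0 = ((Q ^ t * (Q ^ r)⁻¹ * ω.eval 0 : ℚ) : K) := by
    have := hval 0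
    rwa [Rat.cast_zero, mul_zero] at this
  have hq : Q ^ t * (Q ^ r)⁻¹ ≠ 0 := mul_ne_zero (pow_ne_zero _ hQ) (inv_ne_zero (pow_ne_zero _ hQ))
  obtain ⟨s, hs1, hs2, h0, x, hx0, hx⟩ := hmain
    (by rw [v1]; exact_mod_cast mul_ne_zero hq h1) (by rw [v2]; exact_mod_cast mul_ne_zero hq h2)
  have h0' : ω.eval 0 ≠ 0 := by
    rintro h
    rw [v0, h, mul_zero, Rat.cast_zero] at h0
    exact h0 rfl
  refine ⟨s, hs1, hs2, h0', x, hx0, ?_⟩
  rw [← hx, R.det, v1, v2, v0, kap]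
  push_cast
  have h5 : (Q : K) ^ t ≠ 0 := pow_ne_zero _ hQK
  have h6 : (Q : K) ^ r ≠ 0 := pow_ne_zero _ hQK
  have h7 : ((ω.eval 0 : ℚ) : K) ≠ 0 := by exact_mod_cast h0'
  field_simp

/-- **The sign of the discriminant.** -/
theorem sign_disc (p : ℕ) {K : ℕ → Type v} [∀ l, Field (K l)] [∀ l, CharZero (K l)]
    (hK : ∀ (l : ℕ) [Fact l.Prime], l ≠ p → Nonempty (K l →+* ℚ_[l]))
    (R : ∀ l, l.Prime → l ≠ p → Nonempty (Realization pr (K l) Q r δ χ))
    (hQ : 0 < Q) (hδ : δ ≠ 0) {τ : ℕ} {ω : ℚ[X]} (hχ : χ = (X - C Q) ^ τ * ω)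
    (h1 : ω.eval Q ≠ 0) (h2 : ω.eval (-Q) ≠ 0) (hroot : ∀ x : ℝ, aeval x ω = 0 → |x| = Q)
    {z : Fin τ → N} (hz : Orth pr z) :
    ∃ s, r = τ + s ∧ Even s ∧ 0 < (∏ a, pr (z a) (z a)) * δ := by
  -- an auxiliary prime
  obtain ⟨l0, hl0, hl0p⟩ : ∃ l : ℕ, l.Prime ∧ l ≠ p := by
    obtain ⟨l, hl, hl'⟩ := Nat.exists_infinite_primes (p + 1)
    exact ⟨l, hl', by omega⟩
  obtain ⟨R0⟩ := R l0 hl0 hl0p
  obtain ⟨-, hs⟩ := R0.main hQ.ne' hδ hχ h1 h2 hz
  obtain ⟨s, hs1, hs2, h0, -⟩ := hs rfl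
  refine ⟨s, hs1, hs2, ?_⟩
  -- positivity of the values of `ω`
  have hmon : ω.Monic := by
    have h3 : χ.Monic := by
      have h4 : (χ.map (algebraMap ℚ (K l0))).Monic := by
        rw [← R0.char]
        exact LinearMap.charpoly_monic _
      exact (Function.Injective.monic_map_iff (algebraMap ℚ (K l0)).injective).2 h4
    rw [hχ] at h3
    exact ((monic_X_sub_C Q).pow τ).of_mul_monic_left h3
  have hpos : ∀ x : ℚ, 0 < ω.eval x := by
    intro x
    have h3 : (ω.map (algebraMap ℚ ℝ)).Monic := hmon.map _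
    have h4 : ∀ y : ℝ, (ω.map (algebraMap ℚ ℝ)).eval y ≠ 0 := by
      intro y hy
      rw [eval_map_algebraMap] at hy
      have h5 := hroot y hy
      have h6 : ∀ u : ℚ, y = (u : ℝ) → ω.eval u = 0 := by
        intro u hu
        have h7 : aeval ((algebraMap ℚ ℝ) u) ω = 0 := by
          rw [show (algebraMap ℚ ℝ) u = (u : ℝ) from rfl, ← hu]
          exact hy
        rw [aeval_algebraMap_apply, coe_aeval_eq_eval] at h7
        exact (map_eq_zero _).1 h7
      rcases abs_eq (by exact_mod_cast hQ.le : (0 : ℝ) ≤ (Q : ℝ)) |>.1 h5 with h | h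
      · exact h1 (h6 Q h)
      · exact h2 (h6 (-Q) (by rw [h]; push_cast; ring))
    have h8 := pos_of_noroot h3 h4 (x : ℝ)
    rw [eval_map_algebraMap] at h8
    change 0 < aeval ((algebraMap ℚ ℝ) x) ω at h8
    rw [aeval_algebraMap_apply, coe_aeval_eq_eval] at h8
    exact Rat.cast_pos.1 h8
  have hkap : 0 < kap Q r τ ω := by
    unfold kap
    have := hpos Q
    have := hpos (-Q)
    have := hpos 0
    positivity
  have hall : 0 < (∏ a, pr (z a) (z a)) * δ * kap Q r τ ω := by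
    refine pos_of_squares p _ ?_ ?_
    · exact mul_ne_zero (mul_ne_zero (Finset.prod_ne_zero_iff.2 fun a _ => hz.2 a) hδ) hkap.ne'
    · intro l hl hlp
      obtain ⟨Rl⟩ := R l hl.out hlp
      obtain ⟨i⟩ := hK l hlp
      obtain ⟨-, hs'⟩ := Rl.main hQ.ne' hδ hχ h1 h2 hz
      obtain ⟨s', -, -, -, x, -, hx⟩ := hs' rfl
      refine ⟨i x, ?_⟩
      have := congrArg i hx
      rwa [map_ratCast, map_pow] at this
  exact (pos_iff_pos_of_mul_pos hall).2 hkap

end Pool.Agent.W5h89.Disc
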