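import Pool.Agent.W5h89.Disc.Inner
import Pool.Agent.W5h89.Disc.Real
import Pool.Agent.H914R2.GBasic

/-!
# The classes of numerically primitive cycles
-/

open CategoryTheory AlgebraicGeometry Polynomial

universe u v

namespace Pool.Agent.W5h89.Disc

open Pool.Agent.H914 Pool.Agent.H914.VarClass Pool.Agent.H914.VarClass.Obj
  Pool.Agent.H914.WeilCohomology
  Pool.Agent.H281R3.HT Pool.Agent.W539.Ker Pool.Agent.W5h89.Half

variable {k : Type u} [Field k] {𝒱 : VarClass k} {ops : CycleOps 𝒱}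
  {W : WeilCohomology.{u, v} ops} {P : Polarized 𝒱}

theorem L_succ (m : ℕ) (x : W.H P.X) : (LinearMap.mulLeft W.K (W.cl P.X P.D) ^ (m + 1)) x = (LinearMap.mulLeft W.K (W.cl P.X P.D) ^ m) (W.cl P.X P.D * x) := by
  rw [pow_succ, Module.End.mul_apply, LinearMap.mulLeft_apply]

theorem L_succ' (m : ℕ) (x : W.H P.X) : (LinearMap.mulLeft W.K (W.cl P.X P.D) ^ (m + 1)) x = W.cl P.X P.D * (LinearMap.mulLeft W.K (W.cl P.X P.D) ^ m) x := by
  rw [pow_succ', Module.End.mul_apply, LinearMap.mulLeft_apply]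

theorem L_mem (hD : P.X.IsCyc 1 P.D) {i : ℕ} {x : W.H P.X} (hx : x ∈ W.gr P.X i) (m : ℕ) :
    (LinearMap.mulLeft W.K (W.cl P.X P.D) ^ m) x ∈ W.gr P.X (i + 2 * m) := by
  induction m with
  | zero => exact hx
  | succ m ih =>
    rw [pow_succ', Module.End.mul_apply, LinearMap.mulLeft_apply,
      show i + 2 * (m + 1) = 2 * 1 + (i + 2 * m) by ring]
    exact W.mul_mem (W.cl_mem hD) ih

/-- `L` is self-adjoint. -/
theorem L_adj (hD : P.X.IsCyc 1 P.D) (x y : W.H P.X) (m : ℕ) :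
    x * (LinearMap.mulLeft W.K (W.cl P.X P.D) ^ m) y = (LinearMap.mulLeft W.K (W.cl P.X P.D) ^ m) x * y := by
  induction m generalizing x y with
  | zero => rfl
  | succ m ih =>
    rw [L_succ, ih, L_succ', ← mul_assoc, ← W.even_comm (W.cl_mem hD)]

theorem form_symm (hD : P.X.IsCyc 1 P.D) {j : ℕ} {x y : W.H P.X} (_hx : x ∈ W.gr P.X (2 * j))
    (hy : y ∈ W.gr P.X (2 * j)) : lform W P j x y = lform W P j y x := by
  unfold lform
  rw [L_adj hD, W.even_comm hy]

theorem map_L {f : P.X ⟶ P.X} {q : ℕ} (hf : IsFrob W P.X f q) (hD : P.X.IsCyc 1 P.D)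
    (x : W.H P.X) (m : ℕ) : W.map f ((LinearMap.mulLeft W.K (W.cl P.X P.D) ^ m) x) = (q : W.K) ^ m • (LinearMap.mulLeft W.K (W.cl P.X P.D) ^ m) (W.map f x) := by
  induction m with
  | zero => rw [pow_zero, pow_zero, one_smul]; rfl
  | succ m ih =>
    rw [L_succ', map_mul, ih, hf.map_cl 1 _ hD, pow_one, L_succ', smul_mul_smul_comm, pow_succ']

theorem form_map {f : P.X ⟶ P.X} {q : ℕ} (hq : 0 < q) (hf : IsFrob W P.X f q)
    (hD : P.X.IsCyc 1 P.D) {j : ℕ} (hj : 2 * j ≤ P.X.dim) (x y : W.H P.X) :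
    lform W P j (W.map f x) (W.map f y) = ((q : W.K) ^ j) ^ 2 * lform W P j x y := by
  have hq' : (q : W.K) ≠ 0 := by exact_mod_cast hq.ne'
  have h1 := hf.tr_map (x * (LinearMap.mulLeft W.K (W.cl P.X P.D) ^ (P.X.dim - 2 * j)) y)
  rw [map_mul, map_L hf hD, mul_smul_comm, map_smul, smul_eq_mul] at h1
  have h2 : (q : W.K) ^ P.X.dim = (q : W.K) ^ (P.X.dim - 2 * j) * ((q : W.K) ^ j) ^ 2 := by
    rw [← pow_mul, ← pow_add]
    congr 1
    omega
  rw [h2, mul_assoc] at h1
  have h3 := mul_left_cancel₀ (pow_ne_zero _ hq') h1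
  unfold lform
  rw [h3]
  ring

theorem primitive_map {f : P.X ⟶ P.X} {q : ℕ} (hq : 0 < q) (hf : IsFrob W P.X f q)
    (hD : P.X.IsCyc 1 P.D) {j : ℕ} {x : W.H P.X} (hx : x ∈ primSub W P j) :
    W.map f x ∈ primSub W P j := by
  have hq' : (q : W.K) ≠ 0 := by exact_mod_cast hq.ne'
  obtain ⟨h1, h2⟩ := Submodule.mem_inf.1 hx
  refine Submodule.mem_inf.2 ⟨W.map_mem f h1, ?_⟩
  have h3 := map_L hf hD x (P.X.dim - 2 * j + 1)
  rw [LinearMap.mem_ker.1 h2, map_zero] at h3
  exact (smul_eq_zero.1 h3.symm).resolve_left (pow_ne_zero _ hq')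

/-- The class of a numerically primitive cycle can be changed into a primitive class. -/
theorem exists_class (hD : P.X.IsCyc 1 P.D) (hA : LefschetzA W P.X P.D) {j : ℕ}
    (hj : 2 * j ≤ P.X.dim) {z : P.X.Cycles} (hz : NumPrimitive ops P.X P.D j z) :
    ∃ v ∈ primSub W P j, ∃ a : W.H P.X, v = W.cl P.X z - W.cl P.X P.D * a ∧
      (a = 0 ∨ ∃ m y, m + 1 = j ∧ P.X.IsCyc m y ∧ W.cl P.X y = a) := by
  rcases Nat.eq_zero_or_pos j with h0 | h0
  · subst h0
    refine ⟨W.cl P.X z, Submodule.mem_inf.2 ⟨W.cl_mem hz.1, ?_⟩, 0, by rw [mul_zero, sub_zero],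
      Or.inl rfl⟩
    rw [LinearMap.mem_ker]
    have h1 := L_mem (W := W) hD (W.cl_mem hz.1) (P.X.dim - 2 * 0 + 1)
    rw [W.gr_eq_bot _ _ (by omega)] at h1
    exact (Submodule.mem_bot _).1 h1
  · obtain ⟨m, rfl⟩ : ∃ m, j = m + 1 := ⟨j - 1, by omega⟩
    have h1 : P.X.IsCyc (P.X.dim - m) (divPow ops P.D (P.X.dim - 2 * (m + 1) + 1) z) := by
      have := divPow_mem (ops := ops) hD (P.X.dim - 2 * (m + 1) + 1) hz.1
      rwa [show m + 1 + (P.X.dim - 2 * (m + 1) + 1) = P.X.dim - m by omega] at this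
    obtain ⟨y, hy, hy'⟩ := hA m (by omega) _ h1
    refine ⟨_, ?_, W.cl P.X y, rfl, Or.inr ⟨m, y, rfl, hy, rfl⟩⟩
    refine Submodule.mem_inf.2 ⟨Submodule.sub_mem _ (W.cl_mem hz.1) ?_, ?_⟩
    · rw [show 2 * (m + 1) = 2 * 1 + 2 * m by ring]
      exact W.mul_mem (W.cl_mem hD) (W.cl_mem hy)
    · rw [LinearMap.mem_ker, map_sub, ← cl_divPow, ← hy', cl_divPow, sub_eq_zero, ← L_succ]
      congr 2
      omega

/-- The intersection numbers are those of the primitive classes. -/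
theorem form_class (hD : P.X.IsCyc 1 P.D) {j : ℕ} (hj : 2 * j ≤ P.X.dim) {z w : P.X.Cycles}
    (hz : NumPrimitive ops P.X P.D j z) (hw : NumPrimitive ops P.X P.D j w)
    {v v' a a' : W.H P.X} (hv : v ∈ primSub W P j)
    (e : v = W.cl P.X z - W.cl P.X P.D * a) (e' : v' = W.cl P.X w - W.cl P.X P.D * a')
    (ha : a = 0 ∨ ∃ m y, m + 1 = j ∧ P.X.IsCyc m y ∧ W.cl P.X y = a) :
    lform W P j v v' = (pairing ops P.X P.D j z w : W.K) := by
  have h1 : (LinearMap.mulLeft W.K (W.cl P.X P.D) ^ (P.X.dim - 2 * j + 1)) v = 0 := LinearMap.mem_ker.1 (Submodule.mem_inf.1 hv).2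
  have h2 : W.tr P.X (v * (LinearMap.mulLeft W.K (W.cl P.X P.D) ^ (P.X.dim - 2 * j)) (W.cl P.X P.D * a')) = 0 := by
    rw [← L_succ, L_adj hD, h1, zero_mul, map_zero]
  have h3 : W.tr P.X ((W.cl P.X P.D * a) * (LinearMap.mulLeft W.K (W.cl P.X P.D) ^ (P.X.dim - 2 * j)) (W.cl P.X w)) = 0 := by
    rcases ha with rfl | ⟨m, y, hm, hy, rfl⟩
    · rw [mul_zero, zero_mul, map_zero]
    · have h4 := hw.2 m y hm hy
      have h5 : P.X.IsCyc P.X.dim (ops.mul (divPow ops P.D (P.X.dim - 2 * j + 1) w) y) := by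
        have := ops.mul_mem (divPow_mem (ops := ops) hD (P.X.dim - 2 * j + 1) hw.1) hy
        rwa [show j + (P.X.dim - 2 * j + 1) + m = P.X.dim by omega] at this
      have h6 := W.tr_cl h5
      rw [h4, Rat.cast_zero, W.cl_mul, cl_divPow] at h6
      rw [← h6, L_adj hD, ← L_succ, ← L_adj hD, W.even_comm (W.cl_mem hy)]
  have h7 : P.X.IsCyc P.X.dim (ops.mul z (divPow ops P.D (P.X.dim - 2 * j) w)) := by
    have := ops.mul_mem hz.1 (divPow_mem (ops := ops) hD (P.X.dim - 2 * j) hw.1)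
    rwa [show j + (j + (P.X.dim - 2 * j)) = P.X.dim by omega] at this
  unfold lform pairing
  rw [e', map_sub, mul_sub, map_sub, h2, sub_zero, e, sub_mul, map_sub, h3, sub_zero,
    ← cl_divPow, ← W.cl_mul, W.tr_cl h7]
  push_cast
  ring

/-- The primitive class is multiplied by `q ^ j`. -/
theorem map_class {f : P.X ⟶ P.X} {q : ℕ} (hf : IsFrob W P.X f q)
    (hD : P.X.IsCyc 1 P.D) {j : ℕ} {z : P.X.Cycles} (hz : P.X.IsCyc j z) {v a : W.H P.X}
    (e : v = W.cl P.X z - W.cl P.X P.D * a)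
    (ha : a = 0 ∨ ∃ m y, m + 1 = j ∧ P.X.IsCyc m y ∧ W.cl P.X y = a) :
    W.map f v = (q : W.K) ^ j • v := by
  rw [e, map_sub, hf.map_cl j _ hz, smul_sub, map_mul, hf.map_cl 1 _ hD]
  rcases ha with rfl | ⟨m, y, rfl, hy, rfl⟩
  · simp
  · rw [hf.map_cl m _ hy, smul_mul_smul_comm, pow_one, pow_succ']

/-- The realization of the pairing on the numerically primitive cycles. -/
theorem exists_realization {f : P.X ⟶ P.X} {q : ℕ} (hq : 0 < q) (hf : IsFrob W P.X f q)
    (hD : P.X.IsCyc 1 P.D) (hA : LefschetzA W P.X P.D) {j : ℕ} (hj : 2 * j ≤ P.X.dim) {r : ℕ}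
    {δ : ℚ} {χ : ℤ[X]} (hI : HasInv W P f j r δ χ) :
    Nonempty (Realization
      (fun z w : {z // NumPrimitive ops P.X P.D j z} => pairing ops P.X P.D j z.1 w.1)
      W.K ((q : ℚ) ^ j) r δ (χ.map (Int.castRingHom ℚ))) := by
  classical
  obtain ⟨b, F, h1, h2, h3⟩ := hI
  choose v hv a hva ha using fun z : {z // NumPrimitive ops P.X P.D j z} =>
    exists_class (W := W) hD hA hj z.2
  set β : primSub W P j →ₗ[W.K] primSub W P j →ₗ[W.K] W.K :=
    LinearMap.mk₂ W.K (fun x y => lform W P j x.1 y.1)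
      (fun x y z => by simp only [lform, Submodule.coe_add, add_mul, map_add, mul_add])
      (fun c x y => by
        simp only [lform, Submodule.coe_smul, smul_mul_assoc, map_smul, smul_eq_mul]
        ring)
      (fun x y z => by simp only [lform, Submodule.coe_add, map_add, mul_add])
      (fun c x y => by
        simp only [lform, Submodule.coe_smul, map_smul, mul_smul_comm, smul_eq_mul]
        ring) with hβ
  set G : primSub W P j →ₗ[W.K] primSub W P j :=
    (W.map f).toLinearMap.restrict (fun x hx => primitive_map hq hf hD hx) with hG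
  refine ⟨{
    V := primSub W P j
    β := β
    F := G
    b := b
    φ := fun z => ⟨v z, hv z⟩
    symm := fun x y => form_symm hD (Submodule.mem_inf.1 x.2).1 (Submodule.mem_inf.1 y.2).1
    sim := fun x y => by
      push_cast
      exact form_map hq hf hD hj x.1 y.1
    det := ?_
    char := ?_
    fix := fun z => by
      apply Subtype.ext
      push_cast
      exact map_class hf hD z.2.1 (hva z) (ha z)
    val := fun z w => form_class hD hj z.2 w.2 (hv z) (hva z) (hva w) (ha z) }⟩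
  · rw [← h3]
    congr 1
    ext i l
    rw [LinearMap.toMatrix₂_apply]
    rfl
  · have h4 : LinearMap.toMatrix b b G = F := by
      ext i l
      rw [LinearMap.toMatrix_apply]
      have h5 : G (b l) = ∑ a, F a l • b a := by
        apply Subtype.ext
        rw [Submodule.coe_sum]
        exact h1 l
      rw [h5, map_sum, Finsupp.finsetSum_apply, Finset.sum_eq_single i]
      · rw [map_smul, b.repr_self, Finsupp.smul_apply, Finsupp.single_eq_same, smul_eq_mul, mul_one]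
      · intro c _ hc
        rw [map_smul, b.repr_self, Finsupp.smul_apply, Finsupp.single_eq_of_ne hc.symm, smul_zero]
      · intro h6
        exact absurd (Finset.mem_univ i) h6
    rw [← LinearMap.charpoly_toMatrix G b, h4, h2, Polynomial.map_map]
    congr 1
    ext
    simp

end Pool.Agent.W5h89.Disc
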