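import Pool.Agent.W5h89.Disc.Defs

/-!
# The invariants of the primitive cohomology in terms of linear algebra
-/

open CategoryTheory AlgebraicGeometry Polynomial

universe u v

namespace Pool.Agent.W5h89.Disc

open Pool.Agent.H914 Pool.Agent.H914.VarClass Pool.Agent.H914.VarClass.Obj
  Pool.Agent.H281R3.HT Pool.Agent.W539.Ker Pool.Agent.W5h89.Half

variable {k : Type u} [Field k] {𝒱 : VarClass k} {ops : CycleOps 𝒱}

/-- The primitive cohomology of degree `2 j`: the kernel of `D ^ (d - 2 j + 1)` on
`H ^ (2 j) (X)`, `d = dim X`. -/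
noncomputable def primSub (W : WeilCohomology.{u, v} ops) (P : Polarized 𝒱) (j : ℕ) :
    Submodule W.K (W.H P.X) :=
  W.gr P.X (2 * j) ⊓
    LinearMap.ker (LinearMap.mulLeft W.K (W.cl P.X P.D) ^ (P.X.dim - 2 * j + 1))

/-- The value `(-1) ^ j tr (x · D ^ (d - 2 j) · y)` of the form of the standard conjecture of Hodge
type, `d = dim X`. -/
noncomputable def lform (W : WeilCohomology.{u, v} ops) (P : Polarized 𝒱) (j : ℕ)
    (x y : W.H P.X) : W.K :=
  (-1) ^ j * W.tr P.X (x * (LinearMap.mulLeft W.K (W.cl P.X P.D) ^ (P.X.dim - 2 * j)) y)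

/-- The endomorphism `f` of `X` acts on the cohomology like the Frobenius endomorphism relative to
a finite field with `q` elements over which all algebraic classes are defined. -/
structure IsFrob (W : WeilCohomology.{u, v} ops) (X : 𝒱.Obj) (f : X ⟶ X) (q : ℕ) : Prop where
  tr_map : ∀ x, W.tr X (W.map f x) = (q : W.K) ^ X.dim * W.tr X x
  map_cl : ∀ j z, X.IsCyc j z → W.map f (W.cl X z) = (q : W.K) ^ j • W.cl X z

/-- The primitive cohomology of degree `2 j` has a basis `b` with `r` elements in which the form has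
the discriminant `δ`, and `f^*` has a matrix with the characteristic polynomial `χ`. -/
def HasInv (W : WeilCohomology.{u, v} ops) (P : Polarized 𝒱) (f : P.X ⟶ P.X) (j r : ℕ)
    (δ : ℚ) (χ : ℤ[X]) : Prop :=
  ∃ (b : Module.Basis (Fin r) W.K (primSub W P j)) (F : Matrix (Fin r) (Fin r) W.K),
    (∀ c, W.map f (b c) = ∑ a, F a c • (b a : W.H P.X)) ∧
      F.charpoly = χ.map (Int.castRingHom W.K) ∧
      (Matrix.of fun a c => lform W P j (b a) (b c)).det = (δ : W.K)

end Pool.Agent.W5h89.Disc
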