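import Pool.Agent.W5h89.Disc.Real

/-!
# Pairings with at most one new class
-/

open Module

namespace Pool.Agent.W5h89.Disc

universe v w

/-- A realization for a set mapping to the given one. -/
def Realization.comap {N N' : Type*} {pr : N → N → ℚ} {K : Type v} [Field K] [CharZero K]
    {Q : ℚ} {r : ℕ} {δ : ℚ} {χ : Polynomial ℚ} (R : Realization pr K Q r δ χ) (g : N' → N) :
    Realization (fun x y => pr (g x) (g y)) K Q r δ χ where
  V := R.V
  β := R.β
  F := R.F
  b := R.b
  φ := fun z => R.φ (g z)
  symm := R.symm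
  sim := R.sim
  det := R.det
  char := R.char
  fix := fun z => R.fix _
  val := fun z w => R.val _ _

section

variable {N : Type*} [AddCommGroup N] [Module ℚ N] {B : N →ₗ[ℚ] N →ₗ[ℚ] ℚ}

theorem orth_cons (hs : ∀ x y, B x y = B y x) {t : ℕ} {z : Fin t → N}
    (hz : Orth (fun x y => B x y) z) {w : N} (h0 : B w w ≠ 0) (h : ∀ a, B w (z a) = 0) :
    Orth (fun x y => B x y) (Fin.cons w z : Fin (t + 1) → N) := by
  constructor
  · intro a b
    refine Fin.cases ?_ (fun a => ?_) a <;> refine Fin.cases ?_ (fun b => ?_) b
    · intro h1; exact absurd rfl h1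
    · intro _
      rw [Fin.cons_zero, Fin.cons_succ]
      exact h b
    · intro _
      rw [Fin.cons_zero, Fin.cons_succ]
      exact (hs _ _).trans (h a)
    · intro h1
      rw [Fin.cons_succ, Fin.cons_succ]
      exact hz.1 a b fun h2 => h1 (by rw [h2])
  · intro a
    refine Fin.cases ?_ (fun a => ?_) a
    · rw [Fin.cons_zero]; exact h0
    · rw [Fin.cons_succ]; exact hz.2 a

/-- **At most one new class.** -/
theorem jump (hs : ∀ x y, B x y = B y x) {τ : ℕ}
    (hle : ∀ t (z : Fin t → N), Orth (fun x y => B x y) z → t ≤ τ)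
    (hpar : ∀ z : Fin τ → N, Orth (fun x y => B x y) z → 0 < ∏ a, B (z a) (z a)) {t : ℕ}
    {z : Fin t → N} (hz : ∀ a b, a ≠ b → B (z a) (z b) = 0) (hpos : ∀ a, 0 < B (z a) (z a))
    (hτ : τ ≤ t + 1) {w : N} (hw : ∃ u, B w u ≠ 0) : 0 < B w w := by
  have hO : Orth (fun x y => B x y) z := ⟨hz, fun a => (hpos a).ne'⟩
  -- the orthogonal projection
  set pj : N → N := fun x => x - ∑ a, (B x (z a) / B (z a) (z a)) • z a with hpj
  have hpz : ∀ x b, B (pj x) (z b) = 0 := by
    intro x b
    rw [hpj]
    simp only [map_sub, LinearMap.sub_apply, map_sum, LinearMap.sum_apply, map_smul,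
      LinearMap.smul_apply, smul_eq_mul]
    rw [Finset.sum_eq_single b]
    · rw [div_mul_cancel₀ _ (hpos b).ne', sub_self]
    · intro a _ hab
      rw [hz a b hab, mul_zero]
    · intro h
      exact absurd (Finset.mem_univ b) h
  have hpp : ∀ x y, (∀ a, B x (z a) = 0) → B x (pj y) = B x y := by
    intro x y hx
    rw [hpj]
    simp only [map_sub, map_sum, map_smul, hx, smul_zero, Finset.sum_const_zero, sub_zero]
  have hself : ∀ x, B x x = B (pj x) (pj x) + ∑ a, B x (z a) ^ 2 / B (z a) (z a) := by
    intro x
    rw [hpp _ _ (hpz x)]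
    conv_rhs => rw [hpj]
    simp only [map_sub, LinearMap.sub_apply, map_sum, LinearMap.sum_apply, map_smul,
      LinearMap.smul_apply, smul_eq_mul]
    have h1 : ∀ a, B x (z a) / B (z a) (z a) * B (z a) x = B x (z a) ^ 2 / B (z a) (z a) := by
      intro a
      rw [hs (z a) x]
      ring
    rw [Finset.sum_congr rfl fun a _ => h1 a]
    ring
  have hsum : 0 ≤ ∑ a, B w (z a) ^ 2 / B (z a) (z a) :=
    Finset.sum_nonneg fun a _ => div_nonneg (sq_nonneg _) (hpos a).le
  by_cases hA : ∀ u, B (pj w) u = 0
  · have h1 : B w w = ∑ a, B w (z a) ^ 2 / B (z a) (z a) := by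
      rw [hself w, hA, zero_add]
    rw [h1]
    refine lt_of_le_of_ne hsum fun h2 => ?_
    have h3 := (Finset.sum_eq_zero_iff_of_nonneg
      (fun a _ => div_nonneg (sq_nonneg (B w (z a))) (hpos a).le)).1 h2.symm
    have h4 : ∀ a, B w (z a) = 0 := by
      intro a
      have h5 := h3 a (Finset.mem_univ a)
      have h6 := (div_eq_zero_iff.1 h5).resolve_right (hpos a).ne'
      exact pow_eq_zero_iff (two_ne_zero) |>.1 h6
    obtain ⟨u, hu⟩ := hw
    apply hu
    have h5 : pj w = w := by
      rw [hpj]
      simp [h4]
    rw [← h5]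
    exact hA u
  · push Not at hA
    obtain ⟨u, hu⟩ := hA
    by_cases h0 : B (pj w) (pj w) = 0
    · exfalso
      set m := B (pj w) (pj u) with hm
      have hm0 : m ≠ 0 := by rw [hm, hpp _ _ (hpz w)]; exact hu
      set s := B (pj u) (pj u) with hs'
      set xp := pj u + ((1 - s) / (2 * m)) • pj w with hxp
      set xm := pj u + ((-1 - s) / (2 * m)) • pj w with hxm
      have e1 : B xp xp = 1 := by
        rw [hxp]
        simp only [map_add, LinearMap.add_apply, map_smul, LinearMap.smul_apply, smul_eq_mul, h0,
          hs (pj u) (pj w), ← hm, ← hs']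
        field_simp
        ring
      have e2 : B xm xm = -1 := by
        rw [hxm]
        simp only [map_add, LinearMap.add_apply, map_smul, LinearMap.smul_apply, smul_eq_mul, h0,
          hs (pj u) (pj w), ← hm, ← hs']
        field_simp
        ring
      have e3 : B xp xm = 0 := by
        rw [hxp, hxm]
        simp only [map_add, LinearMap.add_apply, map_smul, LinearMap.smul_apply, smul_eq_mul, h0,
          hs (pj u) (pj w), ← hm, ← hs']
        field_simp
        ring
      have e4 : ∀ a, B xp (z a) = 0 := by
        intro a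
        rw [hxp, map_add, LinearMap.add_apply, map_smul, LinearMap.smul_apply, hpz, hpz,
          smul_zero, add_zero]
      have e5 : ∀ a, B xm (z a) = 0 := by
        intro a
        rw [hxm, map_add, LinearMap.add_apply, map_smul, LinearMap.smul_apply, hpz, hpz,
          smul_zero, add_zero]
      have h1 := orth_cons hs hO (w := xm) (by rw [e2]; norm_num) e5
      have h2 := orth_cons hs h1 (w := xp) (by rw [e1]; norm_num) (by
        intro a
        refine Fin.cases ?_ (fun a => ?_) a
        · rw [Fin.cons_zero]; exact e3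
        · rw [Fin.cons_succ]; exact e4 a)
      have h3 := hle _ _ h2
      omega
    · have h1 := orth_cons hs hO h0 (hpz w)
      have h2 := hle _ _ h1
      obtain rfl : τ = t + 1 := by omega
      have h3 := hpar _ h1
      rw [Fin.prod_univ_succ, Fin.cons_zero] at h3
      simp only [Fin.cons_succ] at h3
      have h4 : 0 < ∏ a, B (z a) (z a) := Finset.prod_pos fun a _ => hpos a
      have h5 : 0 < B (pj w) (pj w) := (pos_iff_pos_of_mul_pos h3).2 h4
      rw [hself w]
      linarith

end

/-- A product is positive only if the number of the negative factors is even. -/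
theorem even_neg {t : ℕ} {c : Fin t → ℚ} (h : 0 < ∏ a, c a) :
    Even (Finset.univ.filter fun a => c a < 0).card := by
  classical
  have key : ∀ s : Finset (Fin t), (∀ a ∈ s, c a ≠ 0) →
      0 < (-1 : ℚ) ^ (s.filter fun a => c a < 0).card * ∏ a ∈ s, c a := by
    intro s
    induction s using Finset.induction_on with
    | empty => intro _; simp
    | insert a s ha ih =>
      intro h0
      have h1 := ih fun b hb => h0 b (Finset.mem_insert_of_mem hb)
      have h2 := h0 a (Finset.mem_insert_self a s)
      rw [Finset.prod_insert ha, Finset.filter_insert]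
      by_cases h3 : c a < 0
      · rw [if_pos h3, Finset.card_insert_of_notMem (by simp [ha]), pow_succ]
        have h4 : (-1 : ℚ) ^ (s.filter fun a => c a < 0).card * -1 * (c a * ∏ b ∈ s, c b) =
            (-c a) * ((-1) ^ (s.filter fun a => c a < 0).card * ∏ b ∈ s, c b) := by ring
        rw [h4]
        exact mul_pos (by linarith) h1
      · rw [if_neg h3]
        have h4 : (-1 : ℚ) ^ (s.filter fun a => c a < 0).card * (c a * ∏ b ∈ s, c b) =
            c a * ((-1) ^ (s.filter fun a => c a < 0).card * ∏ b ∈ s, c b) := by ring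
        rw [h4]
        exact mul_pos (lt_of_le_of_ne (not_lt.1 h3) (Ne.symm h2)) h1
  have h1 := key Finset.univ fun a _ h0 => by
    rw [Finset.prod_eq_zero (Finset.mem_univ a) h0] at h
    exact lt_irrefl _ h
  rcases Nat.even_or_odd (Finset.univ.filter fun a => c a < 0).card with h2 | h2
  · exact h2
  · exfalso
    rw [h2.neg_one_pow] at h1
    linarith

end Pool.Agent.W5h89.Disc
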