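import Pool.Agent.W5h89.Disc.Geo
import Pool.Agent.W5h89.Disc.Jump

/-!
# The parity of the number of the negative squares
-/

open CategoryTheory AlgebraicGeometry Polynomial

universe u v

namespace Pool.Agent.W5h89.Disc

open Pool.Agent.H914 Pool.Agent.H914.VarClass Pool.Agent.H914.VarClass.Obj
  Pool.Agent.H914.WeilCohomology
  Pool.Agent.H281R3.HT Pool.Agent.W539.Ker Pool.Agent.W5h89.Half

variable {k : Type u} [Field k] {𝒱 : VarClass k} {ops : CycleOps 𝒱} {P : Polarized 𝒱}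

section one

variable (W : WeilCohomology.{u, v} ops)

/-- The numerically primitive cycles. -/
theorem numPrimitive_iff (hD : P.X.IsCyc 1 P.D) {j : ℕ} (hj : 2 * j ≤ P.X.dim) {z : P.X.Cycles} :
    NumPrimitive ops P.X P.D j z ↔ P.X.IsCyc j z ∧ ∀ m w, m + 1 = j → P.X.IsCyc m w →
      W.tr P.X ((LinearMap.mulLeft W.K (W.cl P.X P.D) ^ (P.X.dim - 2 * j + 1)) (W.cl P.X z) *
        W.cl P.X w) = 0 := by
  refine and_congr_right fun hz => forall₄_congr fun m w hm hw => ?_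
  have h5 : P.X.IsCyc P.X.dim (ops.mul (divPow ops P.D (P.X.dim - 2 * j + 1) z) w) := by
    have := ops.mul_mem (divPow_mem (ops := ops) hD (P.X.dim - 2 * j + 1) hz) hw
    rwa [show j + (P.X.dim - 2 * j + 1) + m = P.X.dim by omega] at this
  rw [← cl_divPow, ← W.cl_mul, W.tr_cl h5, Rat.cast_eq_zero]

/-- The pairing in cohomology. -/
theorem pairing_eq (hD : P.X.IsCyc 1 P.D) {j : ℕ} (hj : 2 * j ≤ P.X.dim) {z w : P.X.Cycles}
    (hz : P.X.IsCyc j z) (hw : P.X.IsCyc j w) :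
    (pairing ops P.X P.D j z w : W.K) = lform W P j (W.cl P.X z) (W.cl P.X w) := by
  have h7 : P.X.IsCyc P.X.dim (ops.mul z (divPow ops P.D (P.X.dim - 2 * j) w)) := by
    have := ops.mul_mem hz (divPow_mem (ops := ops) hD (P.X.dim - 2 * j) hw)
    rwa [show j + (j + (P.X.dim - 2 * j)) = P.X.dim by omega] at this
  unfold lform pairing
  rw [← cl_divPow, ← W.cl_mul, W.tr_cl h7]
  push_cast
  ring

include W in
/-- The numerically primitive cycles form a vector space. -/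
theorem exists_space (hD : P.X.IsCyc 1 P.D) {j : ℕ} (hj : 2 * j ≤ P.X.dim) :
    ∃ N : Submodule ℚ P.X.Cycles, ∀ z, z ∈ N ↔ NumPrimitive ops P.X P.D j z := by
  refine ⟨{
    carrier := {z | NumPrimitive ops P.X P.D j z}
    add_mem' := ?_
    zero_mem' := ?_
    smul_mem' := ?_ }, fun z => Iff.rfl⟩
  · intro a b ha hb
    obtain ⟨ha1, ha2⟩ := (numPrimitive_iff W hD hj).1 ha
    obtain ⟨hb1, hb2⟩ := (numPrimitive_iff W hD hj).1 hb
    refine (numPrimitive_iff W hD hj).2 ⟨ha1.add hb1, fun m w hm hw => ?_⟩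
    rw [map_add, map_add, add_mul, map_add, ha2 m w hm hw, hb2 m w hm hw, add_zero]
  · refine (numPrimitive_iff W hD hj).2 ⟨SmVar.IsCyc.zero _ _, fun m w hm hw => ?_⟩
    rw [map_zero, map_zero, zero_mul, map_zero]
  · intro c a ha
    obtain ⟨ha1, ha2⟩ := (numPrimitive_iff W hD hj).1 ha
    refine (numPrimitive_iff W hD hj).2 ⟨ha1.smul c, fun m w hm hw => ?_⟩
    rw [W.cl_smul, map_smul, smul_mul_assoc, map_smul, ha2 m w hm hw, smul_zero]

include W in
/-- The pairing is bilinear on the numerically primitive cycles. -/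
theorem exists_bilin (hD : P.X.IsCyc 1 P.D) {j : ℕ} (hj : 2 * j ≤ P.X.dim)
    {N : Submodule ℚ P.X.Cycles} (hN : ∀ z, z ∈ N ↔ NumPrimitive ops P.X P.D j z) :
    ∃ B : N →ₗ[ℚ] N →ₗ[ℚ] ℚ, (∀ x y, B x y = pairing ops P.X P.D j x.1 y.1) ∧
      ∀ x y, B x y = B y x := by
  have hc : ∀ x : N, P.X.IsCyc j x.1 := fun x => ((hN _).1 x.2).1
  have key : ∀ {a b : ℚ}, (a : W.K) = b → a = b := fun h => Rat.cast_injective h
  refine ⟨LinearMap.mk₂ ℚ (fun x y => pairing ops P.X P.D j x.1 y.1) ?_ ?_ ?_ ?_,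
    fun x y => rfl, ?_⟩
  · intro x y z
    apply key
    push_cast
    rw [pairing_eq W hD hj ((hc x).add (hc y)) (hc z), pairing_eq W hD hj (hc x) (hc z),
      pairing_eq W hD hj (hc y) (hc z)]
    simp only [lform, Submodule.coe_add, map_add, add_mul, mul_add]
  · intro c x y
    apply key
    rw [smul_eq_mul]
    push_cast
    rw [pairing_eq W hD hj ((hc x).smul c) (hc y), pairing_eq W hD hj (hc x) (hc y)]
    simp only [lform, Submodule.coe_smul, W.cl_smul, map_smul, smul_mul_assoc, smul_eq_mul]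
    ring
  · intro x y z
    apply key
    push_cast
    rw [pairing_eq W hD hj (hc x) ((hc y).add (hc z)), pairing_eq W hD hj (hc x) (hc y),
      pairing_eq W hD hj (hc x) (hc z)]
    simp only [lform, Submodule.coe_add, map_add, mul_add]
  · intro c x y
    apply key
    rw [smul_eq_mul]
    push_cast
    rw [pairing_eq W hD hj (hc x) ((hc y).smul c), pairing_eq W hD hj (hc x) (hc y)]
    simp only [lform, Submodule.coe_smul, W.cl_smul, map_smul, mul_smul_comm, smul_eq_mul]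
    ring
  · intro x y
    apply key
    rw [LinearMap.mk₂_apply, LinearMap.mk₂_apply, pairing_eq W hD hj (hc x) (hc y),
      pairing_eq W hD hj (hc y) (hc x)]
    exact form_symm hD (W.cl_mem (hc x)) (W.cl_mem (hc y))

/-- A numerically primitive cycle which is not numerically trivial. -/
theorem exists_pair (hD : P.X.IsCyc 1 P.D) (hA : LefschetzA W P.X P.D) {j : ℕ}
    (hj : 2 * j ≤ P.X.dim) {z : P.X.Cycles} (hz : NumPrimitive ops P.X P.D j z)
    (hnt : ¬ NumTrivial ops P.X j z) :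
    ∃ w, NumPrimitive ops P.X P.D j w ∧ pairing ops P.X P.D j z w ≠ 0 := by
  unfold NumTrivial at hnt
  push Not at hnt
  obtain ⟨y, hy, hzy⟩ := hnt
  obtain ⟨x, hx, hxy⟩ := hA j hj y hy
  -- the cycle `x` is made primitive
  have h1 : lform W P j (W.cl P.X z) (W.cl P.X x) ≠ 0 := by
    have h2 : P.X.IsCyc P.X.dim (ops.mul z y) := by
      have := ops.mul_mem hz.1 hy
      rwa [show j + (P.X.dim - j) = P.X.dim by omega] at this
    unfold lform
    rw [← cl_divPow, hxy, ← W.cl_mul, W.tr_cl h2]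
    exact mul_ne_zero (pow_ne_zero _ (by norm_num)) (by exact_mod_cast hzy)
  rcases Nat.eq_zero_or_pos j with h0 | h0
  · subst h0
    refine ⟨x, ⟨hx, fun m w hm => absurd hm (Nat.succ_ne_zero m)⟩, fun h2 => h1 ?_⟩
    rw [← pairing_eq W hD hj hz.1 hx, h2, Rat.cast_zero]
  · obtain ⟨m, rfl⟩ : ∃ m, j = m + 1 := ⟨j - 1, by omega⟩
    have h2 : P.X.IsCyc (P.X.dim - m) (divPow ops P.D (P.X.dim - 2 * (m + 1) + 1) x) := by
      have := divPow_mem (ops := ops) hD (P.X.dim - 2 * (m + 1) + 1) hx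
      rwa [show m + 1 + (P.X.dim - 2 * (m + 1) + 1) = P.X.dim - m by omega] at this
    obtain ⟨s, hs, hs'⟩ := hA m (by omega) _ h2
    have hDs : P.X.IsCyc (m + 1) (ops.mul P.D s) := by
      have := ops.mul_mem hD hs
      rwa [show 1 + m = m + 1 by ring] at this
    have hcyc : P.X.IsCyc (m + 1) (x - ops.mul P.D s) := by
      have h3 := hx.add (hDs.smul (-1 : ℚ))
      rwa [neg_one_smul, ← sub_eq_add_neg] at h3
    have hprim : (LinearMap.mulLeft W.K (W.cl P.X P.D) ^ (P.X.dim - 2 * (m + 1) + 1))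
        (W.cl P.X (x - ops.mul P.D s)) = 0 := by
      rw [map_sub, map_sub, W.cl_mul, ← cl_divPow, ← hs', cl_divPow, sub_eq_zero, ← L_succ]
      congr 2
      omega
    refine ⟨x - ops.mul P.D s, (numPrimitive_iff W hD hj).2 ⟨hcyc, fun n w _ _ => ?_⟩,
      fun h3 => h1 ?_⟩
    · rw [hprim, zero_mul, map_zero]
    · have h4 := pairing_eq W hD hj hz.1 hcyc
      rw [h3, Rat.cast_zero] at h4
      have h5 : lform W P (m + 1) (W.cl P.X z) (W.cl P.X (ops.mul P.D s)) = 0 := by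
        unfold lform
        have h6 := ((numPrimitive_iff W hD hj).1 hz).2 m s rfl hs
        rw [W.cl_mul, ← L_succ, L_adj hD, h6, mul_zero]
      have h6 : lform W P (m + 1) (W.cl P.X z) (W.cl P.X (x - ops.mul P.D s)) =
          lform W P (m + 1) (W.cl P.X z) (W.cl P.X x) -
            lform W P (m + 1) (W.cl P.X z) (W.cl P.X (ops.mul P.D s)) := by
        simp only [lform, map_sub, mul_sub]
      rw [h5, sub_zero] at h6
      rw [← h6]
      exact h4.symm

end one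

/-- **The discriminant and the parity of the number of negative squares.** -/
theorem parity_main (p : ℕ) (W : ℕ → WeilCohomology.{u, v} ops)
    (hW : ∀ (l : ℕ) [Fact l.Prime], l ≠ p → Nonempty ((W l).K →+* ℚ_[l]))
    (hD : P.X.IsCyc 1 P.D) {f : P.X ⟶ P.X} {q : ℕ} (hq : 0 < q)
    (hf : ∀ l, l.Prime → l ≠ p → IsFrob (W l) P.X f q)
    (hA : ∀ l, l.Prime → l ≠ p → LefschetzA (W l) P.X P.D) {j : ℕ} (hj : 2 * j ≤ P.X.dim)
    {r : ℕ} {δ : ℚ} (hδ : 0 < δ) {χ : ℤ[X]}
    (hI : ∀ l, l.Prime → l ≠ p → HasInv (W l) P f j r δ χ)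
    (hRH : ∀ z : ℂ, aeval z χ = 0 → ‖z‖ = (q : ℝ) ^ j) (hneg : χ.eval (-(q : ℤ) ^ j) ≠ 0) :
    (∀ (t : ℕ) (z : Fin t → P.X.Cycles), IsOrthogonal ops P j z →
      (∀ a, pairing ops P.X P.D j (z a) (z a) ≠ 0) → t ≤ χ.rootMultiplicity ((q : ℤ) ^ j)) ∧
    (∀ z : Fin (χ.rootMultiplicity ((q : ℤ) ^ j)) → P.X.Cycles, IsOrthogonal ops P j z →
      (∀ a, pairing ops P.X P.D j (z a) (z a) ≠ 0) →
        0 < ∏ a, pairing ops P.X P.D j (z a) (z a)) ∧
    ∀ (t : ℕ) (z : Fin t → P.X.Cycles), IsOrthogonal ops P j z →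
      (∀ a, 0 < pairing ops P.X P.D j (z a) (z a)) →
        χ.rootMultiplicity ((q : ℤ) ^ j) ≤ t + 1 → HodgeIn ops P j := by
  classical
  obtain ⟨l0, hl0, hl0p⟩ : ∃ l : ℕ, l.Prime ∧ l ≠ p := by
    obtain ⟨l, hl, hl'⟩ := Nat.exists_infinite_primes (p + 1)
    exact ⟨l, hl', by omega⟩
  have hQ : (0 : ℚ) < (q : ℚ) ^ j := pow_pos (by exact_mod_cast hq) j
  -- the factorization of the characteristic polynomial
  have hR := fun l hl hlp => exists_realization hq (hf l hl hlp) hD (hA l hl hlp) hj (hI l hl hlp)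
  obtain ⟨R0⟩ := hR l0 hl0 hl0p
  have hχ0 : χ ≠ 0 := by
    rintro rfl
    have h1 := LinearMap.charpoly_monic R0.F
    rw [R0.char, Polynomial.map_zero, Polynomial.map_zero] at h1
    exact not_monic_zero h1
  set τ := χ.rootMultiplicity ((q : ℤ) ^ j) with hτ
  obtain ⟨ω, hω, hndvd⟩ := Polynomial.exists_eq_pow_rootMultiplicity_mul_and_not_dvd χ hχ0
    ((q : ℤ) ^ j)
  set ωQ := ω.map (Int.castRingHom ℚ) with hωQ
  have hfac : χ.map (Int.castRingHom ℚ) = (X - C ((q : ℚ) ^ j)) ^ τ * ωQ := by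
    conv_lhs => rw [hω]
    rw [Polynomial.map_mul, Polynomial.map_pow, Polynomial.map_sub, map_X, map_C]
    simp only [eq_intCast, Int.cast_pow, Int.cast_natCast]
    rfl
  have hevQ : ∀ x : ℤ, ωQ.eval (x : ℚ) = ((ω.eval x : ℤ) : ℚ) := by
    intro x
    rw [hωQ, eval_intCast_map]
    rfl
  have h1 : ωQ.eval ((q : ℚ) ^ j) ≠ 0 := by
    have h2 := hevQ ((q : ℤ) ^ j)
    push_cast at h2
    rw [h2]
    intro h3
    exact hndvd (dvd_iff_isRoot.2 (by exact_mod_cast h3))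
  have h2 : ωQ.eval (-(q : ℚ) ^ j) ≠ 0 := by
    have h3 := hevQ (-(q : ℤ) ^ j)
    push_cast at h3
    rw [h3]
    intro h4
    apply hneg
    rw [hω, eval_mul, show ω.eval (-(q : ℤ) ^ j) = 0 by exact_mod_cast h4, mul_zero]
  have hroot : ∀ x : ℝ, aeval x ωQ = 0 → |x| = (((q : ℚ) ^ j : ℚ) : ℝ) := by
    intro x hx
    have h3 : aeval (x : ℂ) χ = 0 := by
      rw [hω, map_mul]
      have h4 : aeval (x : ℂ) ω = 0 := by
        have h5 : aeval x ω = 0 := by
          rw [hωQ] at hx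
          have : algebraMap ℤ ℚ = Int.castRingHom ℚ := rfl
          rwa [← this, aeval_map_algebraMap] at hx
        have h6 : aeval ((algebraMap ℝ ℂ) x) ω = (algebraMap ℝ ℂ) (aeval x ω) :=
          aeval_algebraMap_apply ℂ x ω
        rw [h5, map_zero] at h6
        exact h6
      rw [h4, mul_zero]
    have h4 := hRH _ h3
    rw [Complex.norm_real, Real.norm_eq_abs] at h4
    rw [h4]
    push_cast
    rfl
  -- the space of the numerically primitive cycles
  obtain ⟨N, hN⟩ := exists_space (W l0) hD hj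
  obtain ⟨B, hB, hBs⟩ := exists_bilin (W l0) hD hj hN
  have hRN : ∀ l, l.Prime → l ≠ p → Nonempty (Realization (fun x y : N => B x y) (W l).K
      ((q : ℚ) ^ j) r δ (χ.map (Int.castRingHom ℚ))) := by
    intro l hl hlp
    obtain ⟨R⟩ := hR l hl hlp
    have e : (fun x y : N => B x y) = fun x y : N => pairing ops P.X P.D j
        (⟨x.1, (hN _).1 x.2⟩ : {z // NumPrimitive ops P.X P.D j z}).1
        (⟨y.1, (hN _).1 y.2⟩ : {z // NumPrimitive ops P.X P.D j z}).1 := by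
      funext x y
      exact hB x y
    rw [e]
    exact ⟨R.comap fun x : N => (⟨x.1, (hN _).1 x.2⟩ : {z // NumPrimitive ops P.X P.D j z})⟩
  have hle : ∀ t (z : Fin t → N), Orth (fun x y => B x y) z → t ≤ τ := by
    intro t z hz
    obtain ⟨R⟩ := hRN l0 hl0 hl0p
    exact (R.main hQ.ne' hδ.ne' hfac h1 h2 hz).1
  have hpar : ∀ z : Fin τ → N, Orth (fun x y => B x y) z → 0 < ∏ a, B (z a) (z a) := by
    intro z hz
    obtain ⟨s, -, -, h3⟩ := sign_disc p (K := fun l => (W l).K) hW hRN hQ hδ.ne' hfac h1 h2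
      hroot hz
    exact (pos_iff_pos_of_mul_pos h3).2 hδ
  have hlift : ∀ {t : ℕ} {z : Fin t → P.X.Cycles}, IsOrthogonal ops P j z →
      ∃ z' : Fin t → N, (∀ a, (z' a).1 = z a) ∧ ∀ a b, a ≠ b → B (z' a) (z' b) = 0 := by
    intro t z hz
    refine ⟨fun a => ⟨z a, (hN _).2 (hz.1 a)⟩, fun a => rfl, fun a b hab => ?_⟩
    rw [hB]
    exact hz.2 a b hab
  refine ⟨fun t z hz hz0 => ?_, fun z hz hz0 => ?_, fun t z hz hz0 ht w hw hnt => ?_⟩
  · obtain ⟨z', hz', hz''⟩ := hlift hz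
    refine hle t z' ⟨hz'', fun a => ?_⟩
    change B (z' a) (z' a) ≠ 0
    rw [hB, hz']
    exact hz0 a
  · obtain ⟨z', hz', hz''⟩ := hlift hz
    have h3 := hpar z' ⟨hz'', fun a => by
      change B (z' a) (z' a) ≠ 0
      rw [hB, hz']; exact hz0 a⟩
    refine lt_of_lt_of_eq h3 (Finset.prod_congr rfl fun a _ => ?_)
    rw [hB, hz']
  · obtain ⟨z', hz', hz''⟩ := hlift hz
    obtain ⟨u, hu, hwu⟩ := exists_pair (W l0) hD (hA l0 hl0 hl0p) hj hw hnt
    have h3 := jump hBs hle hpar hz'' (fun a => by rw [hB, hz']; exact hz0 a) ht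
      (w := ⟨w, (hN _).2 hw⟩) ⟨⟨u, (hN _).2 hu⟩, by rw [hB]; exact hwu⟩
    rwa [hB] at h3

end Pool.Agent.W5h89.Disc
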