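import Mathlib

/-!
# Determinants of skew-symmetric matrices, rational numbers which are squares in the fields of
# `ℓ`-adic numbers, and polynomials without real roots
-/

open Matrix Polynomial

namespace Pool.Agent.W5h89.Disc

section Skew

variable {K : Type*} [Field K] [CharZero K]

theorem skew_diag {n : Type*} {M : Matrix n n K} (h : Mᵀ = -M) (i : n) : M i i = 0 := by
  have h1 := congrFun (congrFun h i) i
  rw [transpose_apply, neg_apply] at h1
  have h2 : (2 : K) * M i i = 0 := by rw [two_mul]; nth_rewrite 1 [h1]; ring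
  exact (mul_eq_zero.1 h2).resolve_left two_ne_zero

/-- The determinant of a skew-symmetric matrix is a square. -/
theorem skew_sq : ∀ (n : ℕ) (M : Matrix (Fin n) (Fin n) K), Mᵀ = -M → ∃ x : K, M.det = x ^ 2 := by
  intro n
  induction n using Nat.strong_induction_on with
  | _ n ih =>
    match n, ih with
    | 0, _ => exact fun M _ => ⟨1, by rw [Matrix.det_fin_zero, one_pow]⟩
    | 1, _ =>
      intro M h
      refine ⟨0, ?_⟩
      rw [Matrix.det_fin_one, skew_diag h 0]
      ring
    | n + 2, ih =>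
      intro M h
      by_cases h0 : ∀ j, M 0 j = 0
      · refine ⟨0, ?_⟩
        rw [Matrix.det_eq_zero_of_row_eq_zero 0 h0]
        ring
      push Not at h0
      obtain ⟨j, hj⟩ := h0
      have hj0 : j ≠ 0 := by
        rintro rfl
        exact hj (skew_diag h 0)
      set σ : Equiv.Perm (Fin (n + 2)) := Equiv.swap 1 j with hσ
      have hσ0 : σ 0 = 0 := Equiv.swap_apply_of_ne_of_ne (by simp) (Ne.symm hj0)
      have hσ1 : σ 1 = j := Equiv.swap_apply_left _ _
      set e : Fin 2 ⊕ Fin n ≃ Fin (n + 2) :=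
        (finSumFinEquiv.trans (finCongr (Nat.add_comm 2 n))).trans σ with he
      set N : Matrix (Fin 2 ⊕ Fin n) (Fin 2 ⊕ Fin n) K := M.submatrix e e with hN
      have hNs : Nᵀ = -N := by
        ext a b
        exact congrFun (congrFun h (e a)) (e b)
      have hdet : N.det = M.det := Matrix.det_submatrix_equiv_self e M
      have e0 : e (Sum.inl 0) = 0 := by
        rw [he]
        simp [finSumFinEquiv_apply_left]
        exact hσ0
      have e1 : e (Sum.inl 1) = j := by
        rw [he]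
        simp [finSumFinEquiv_apply_left]
        exact hσ1
      set a : K := M 0 j with ha
      set A := N.toBlocks₁₁ with hA
      have hA' : A = !![0, a; -a, 0] := by
        ext x y
        fin_cases x <;> fin_cases y
        · exact skew_diag hNs _
        · change M (e (Sum.inl 0)) (e (Sum.inl 1)) = a
          rw [e0, e1]
        · change N (Sum.inl 1) (Sum.inl 0) = -a
          have h1 := congrFun (congrFun hNs (Sum.inl 0)) (Sum.inl 1)
          rw [transpose_apply, neg_apply] at h1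
          rw [h1]
          change -M (e (Sum.inl 0)) (e (Sum.inl 1)) = -a
          rw [e0, e1]
        · exact skew_diag hNs _
      have hAdet : A.det = a ^ 2 := by
        rw [hA', Matrix.det_fin_two_of]
        ring
      have hAu : IsUnit A.det := by
        rw [hAdet]
        exact (pow_ne_zero 2 hj).isUnit
      have : Invertible A := Matrix.invertibleOfIsUnitDet A hAu
      have hblk : N = fromBlocks A N.toBlocks₁₂ N.toBlocks₂₁ N.toBlocks₂₂ :=
        (fromBlocks_toBlocks N).symm
      have hAt : Aᵀ = -A := by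
        ext x y
        exact congrFun (congrFun hNs (Sum.inl x)) (Sum.inl y)
      have hDt : N.toBlocks₂₂ᵀ = -N.toBlocks₂₂ := by
        ext x y
        exact congrFun (congrFun hNs (Sum.inr x)) (Sum.inr y)
      have hBt : N.toBlocks₁₂ᵀ = -N.toBlocks₂₁ := by
        ext x y
        exact congrFun (congrFun hNs (Sum.inr x)) (Sum.inl y)
      have hCt : N.toBlocks₂₁ᵀ = -N.toBlocks₁₂ := by
        ext x y
        exact congrFun (congrFun hNs (Sum.inl x)) (Sum.inr y)
      have hinv : (⅟A)ᵀ = -⅟A := by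
        rw [Matrix.invOf_eq_nonsing_inv, Matrix.transpose_nonsing_inv, hAt]
        have : (-A)⁻¹ = -A⁻¹ := by
          apply Matrix.inv_eq_left_inv
          rw [neg_mul_neg, Matrix.nonsing_inv_mul _ hAu]
        exact this
      obtain ⟨x, hx⟩ := ih n (by omega)
        (N.toBlocks₂₂ - N.toBlocks₂₁ * ⅟A * N.toBlocks₁₂) (by
          rw [transpose_sub, transpose_mul, transpose_mul, hDt, hBt, hCt, hinv, neg_sub]
          simp only [Matrix.neg_mul, Matrix.mul_neg, neg_neg, Matrix.mul_assoc]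
          abel)
      refine ⟨a * x, ?_⟩
      rw [← hdet, hblk, Matrix.det_fromBlocks₁₁, hAdet, hx]
      ring

end Skew

section Squares

/-- A number which is `3` modulo `4` has a prime factor which is `3` modulo `4`. -/
theorem exists_prime_three {T : ℕ} (hT : T % 4 = 3) : ∃ l, l.Prime ∧ l ∣ T ∧ l % 4 = 3 := by
  have hex : ∃ d, d ∣ T ∧ d % 4 = 3 := ⟨T, dvd_refl T, hT⟩
  classical
  obtain ⟨h1, h2⟩ := Nat.find_spec hex
  have hmin := fun m hm => Nat.find_min hex (m := m) hm
  set d := Nat.find hex with hd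
  refine ⟨d, ?_, h1, h2⟩
  by_contra hp
  have hd2 : 2 ≤ d := by omega
  obtain ⟨a, had, ha2, ha3⟩ := Nat.exists_dvd_of_not_prime2 hd2 hp
  obtain ⟨b, hb⟩ := had
  have ha4 : a % 4 ≠ 3 := fun h => hmin a ha3 ⟨(Dvd.intro b hb.symm).trans h1, h⟩
  have hb3 : b < d := by
    rw [hb]
    have hb0 : 0 < b := by
      rcases Nat.eq_zero_or_pos b with h | h
      · rw [h] at hb; omega
      · exact h
    nlinarith
  have hb4 : b % 4 ≠ 3 := fun h => hmin b hb3 ⟨(Dvd.intro_left a hb.symm).trans h1, h⟩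
  have h5 : (a * b) % 4 = 3 := by rw [← hb]; exact h2
  have h6 : (a * b) % 4 = ((a % 4) * (b % 4)) % 4 := Nat.mul_mod a b 4
  have h7 : a % 4 < 4 := Nat.mod_lt _ (by norm_num)
  have h8 : b % 4 < 4 := Nat.mod_lt _ (by norm_num)
  rw [h5] at h6
  interval_cases h9 : a % 4 <;> interval_cases h10 : b % 4 <;> omega

/-- A nonzero rational number which is a square in the field of `ℓ`-adic numbers for all primes
`ℓ ≠ p` is positive. -/
theorem pos_of_squares (p : ℕ) (r : ℚ) (hr : r ≠ 0)
    (h : ∀ (l : ℕ) [Fact l.Prime], l ≠ p → ∃ y : ℚ_[l], (r : ℚ_[l]) = y ^ 2) : 0 < r := by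
  by_contra hneg
  have hr' : r < 0 := lt_of_le_of_ne (not_lt.1 hneg) hr
  set N : ℕ := r.num.natAbs * r.den with hN
  have hnum : r.num < 0 := Rat.num_neg.2 hr'
  have hN0 : 0 < N := Nat.mul_pos (Int.natAbs_pos.2 (ne_of_lt hnum)) r.den_pos
  have hNr : (-(N : ℚ)) = r * (r.den : ℚ) ^ 2 := by
    have h1 : ((r.num.natAbs : ℕ) : ℚ) = -(r.num : ℚ) := by
      rw [Nat.cast_natAbs, abs_of_neg hnum, Int.cast_neg]
    have h2 : (r.num : ℚ) = r * r.den := by
      exact_mod_cast (Rat.mul_den_eq_num r).symm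
    rw [hN, Nat.cast_mul, h1, h2]
    ring
  -- the prime
  set q : ℕ := if p = 0 then 1 else p with hq
  have hq0 : 0 < q := by
    rw [hq]; split_ifs with h1
    · exact one_pos
    · exact Nat.pos_of_ne_zero h1
  have hpos : 0 < N * q ^ 2 := Nat.mul_pos hN0 (pow_pos hq0 2)
  obtain ⟨l, hl, hlT, hl4⟩ := exists_prime_three (T := 4 * (N * q ^ 2) - 1) (by omega)
  have : Fact l.Prime := ⟨hl⟩
  have hlp : l ≠ p := by
    rintro rfl
    have h1 : q = l := by rw [hq, if_neg hl.ne_zero]
    rw [h1] at hlT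
    have h2 : l ∣ 4 * (N * l ^ 2) := ⟨4 * (N * l), by ring⟩
    have h3 : l ∣ 1 := by
      have h4 := Nat.dvd_sub h2 hlT
      have h5 : 4 * (N * l ^ 2) - (4 * (N * l ^ 2) - 1) = 1 := by
        rw [h1] at hpos
        omega
      rwa [h5] at h4
    exact hl.one_lt.ne' (Nat.dvd_one.1 h3)
  obtain ⟨y, hy⟩ := h l hlp
  have hz : (-(N : ℚ_[l])) = (y * (r.den : ℚ_[l])) ^ 2 := by
    have h1 : ((-(N : ℚ) : ℚ) : ℚ_[l]) = ((r * (r.den : ℚ) ^ 2 : ℚ) : ℚ_[l]) := by rw [hNr]
    push_cast at h1
    rw [h1, hy]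
    ring
  set w : ℚ_[l] := y * (r.den : ℚ_[l]) with hw
  have hwn : ‖w‖ ≤ 1 := by
    have h1 : ‖w‖ ^ 2 = ‖(-(N : ℚ_[l]))‖ := by rw [hz, norm_pow]
    have h2 : ‖(-(N : ℚ_[l]))‖ ≤ 1 := by
      rw [norm_neg]
      exact_mod_cast Padic.norm_int_le_one (p := l) (N : ℤ)
    have h3 : ‖w‖ ^ 2 ≤ 1 := by rw [h1]; exact h2
    nlinarith [norm_nonneg w]
  set W : ℤ_[l] := ⟨w, hwn⟩ with hW
  have hW2 : (-(N : ℤ_[l])) = W ^ 2 := by
    apply Subtype.ext
    push_cast
    exact hz
  have hm : (-(N : ZMod l)) = (PadicInt.toZMod W) ^ 2 := by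
    have := congrArg (PadicInt.toZMod (p := l)) hW2
    rw [map_neg, map_natCast, map_pow] at this
    exact this
  have hu : (4 : ZMod l) * (N * q ^ 2) = 1 := by
    have h1 : ((4 * (N * q ^ 2) - 1 : ℕ) : ZMod l) = 0 := (ZMod.natCast_eq_zero_iff _ _).2 hlT
    rw [Nat.cast_sub (by omega)] at h1
    push_cast at h1
    exact sub_eq_zero.1 h1
  have hsq : IsSquare (-1 : ZMod l) := by
    refine ⟨PadicInt.toZMod W * (2 * q), ?_⟩
    have h1 : PadicInt.toZMod W * (2 * q) * (PadicInt.toZMod W * (2 * q)) =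
        (PadicInt.toZMod W) ^ 2 * (4 * q ^ 2) := by ring
    rw [h1, ← hm]
    linear_combination hu
  exact (ZMod.exists_sq_eq_neg_one_iff.1 hsq) hl4

end Squares

section NoRoots

/-- A monic real polynomial without real zeros is positive. -/
theorem pos_of_noroot {f : ℝ[X]} (hf : f.Monic) (h : ∀ x, f.eval x ≠ 0) (x : ℝ) :
    0 < f.eval x := by
  by_contra hx
  have hx' : f.eval x < 0 := lt_of_le_of_ne (not_lt.1 hx) (h x)
  have hdeg : 0 < f.degree := by
    rw [← Polynomial.natDegree_pos_iff_degree_pos]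
    by_contra hd
    have hd0 : f.natDegree = 0 := by omega
    have := hf.natDegree_eq_zero.1 hd0
    rw [this, eval_one] at hx'
    linarith
  have htend : Filter.Tendsto (fun x => f.eval x) Filter.atTop Filter.atTop :=
    f.tendsto_atTop_of_leadingCoeff_nonneg hdeg (by rw [hf.leadingCoeff]; norm_num)
  obtain ⟨y, hy, hxy⟩ := ((htend.eventually_gt_atTop 0).and (Filter.eventually_gt_atTop x)).exists
  have hc : ContinuousOn (fun x => f.eval x) (Set.Icc x y) := f.continuous.continuousOn
  have := intermediate_value_Icc hxy.le hc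
  obtain ⟨z, -, hz⟩ := this (show (0 : ℝ) ∈ Set.Icc (f.eval x) (f.eval y) from ⟨hx'.le, hy.le⟩)
  exact h z hz

end NoRoots

end Pool.Agent.W5h89.Disc
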